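import Pool.Agent.helper68.Vis.Pmap

set_option autoImplicit false

/-!
# MP_6b3417_co, part III: the vanishing line (module III-h)
-/

namespace Pool.Agent.helper68.Vis

open Pool.Agent.helper47.Vis

/-- The statement of `theoremA` (III.8). -/
def StatA : Prop := ∃ M₀ : ℕ, ∀ M : ℕ, M₀ ≤ M → ∀ P : Set (ℝ × ℝ), P.Finite → K5free P →
    toR '' Box M ⊆ P →
    (∀ p ∈ P, 0 ≤ p.1 → p.1 ≤ M → 0 ≤ p.2 → p.2 ≤ M → p ∈ toR '' Box M) →
    ∃ G : Set (ℤ × ℤ), P = toR '' G ∧ Good G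

/-- The statement of `exists_max_window`. -/
def StatMax : Prop := ∃ M₀ : ℕ, ∀ G : Set (ℤ × ℤ), G.Finite → Good G → Box M₀ ⊆ G →
    ∃ M R K : ℕ, Par M R K ∧ 5 ≤ M ∧ M₀ ≤ M ∧ ∃ o u v : ℤ × ℤ, IsBas u v ∧
      Box M ⊆ umap o u v ⁻¹' G ∧ Good (umap o u v ⁻¹' G) ∧ (umap o u v ⁻¹' G).Finite ∧
      ¬ HasWindow (umap o u v ⁻¹' G) (M + 1) ∧
      ∀ z ∈ umap o u v ⁻¹' G, Handled K (toR z)

/-- The statement of `clear_square`. -/
def StatClear : Prop := ∀ {M R K : ℕ}, Par M R K → 5 ≤ M → ∀ G : Set (ℤ × ℤ),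
    G.Finite → Good G → Box M ⊆ G →
    (∀ z ∈ G, Handled K (toR z)) → ∀ y : ℝ × ℝ, y ∉ convexHull ℝ (toR '' G) →
    ∃ w : ℤ × ℤ, (∀ ε₁ ε₂ : ℤ, (ε₁ = 0 ∨ ε₁ = 1) → (ε₂ = 0 ∨ ε₂ = 1) →
        (w.1 + ε₁, w.2 + ε₂) ∈ G) ∧
      ∀ ε₁ ε₂ ε₁' ε₂' : ℤ, (ε₁ = 0 ∨ ε₁ = 1) → (ε₂ = 0 ∨ ε₂ = 1) → (ε₁' = 0 ∨ ε₁' = 1) →
        (ε₂' = 0 ∨ ε₂' = 1) → ∀ lam : ℝ, 0 < lam →
        toR (w.1 + ε₁', w.2 + ε₂') + lam • (toR (w.1 + ε₁, w.2 + ε₂) - y) ∉ toR '' G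

/-- The core: no point beyond the vanishing line. -/
theorem core (hclear : StatClear) {M R K : ℕ} (hp : Par M R K) (hM : 5 ≤ M) (G : Set (ℤ × ℤ))
    (hfin : G.Finite) (hG : Good G) (hW : Box M ⊆ G) (hh : ∀ z ∈ G, Handled K (toR z))
    (P : Set (ℝ × ℝ)) (hfP : P.Finite) (hK : K5free P) (A : Matrix (Fin 3) (Fin 3) ℝ)
    (hA : A.det ≠ 0) (himg : pmap A '' {p ∈ P | 0 < aff A 2 p} = toR '' G) :
    ∀ p ∈ P, ¬ aff A 2 p < 0 := by
  intro y0 hy0P hy0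
  -- the closest point
  obtain ⟨y, ⟨hyP, hy⟩, hmax⟩ : ∃ y ∈ {p ∈ P | aff A 2 p < 0}, ∀ p ∈ {p ∈ P | aff A 2 p < 0},
      aff A 2 p ≤ aff A 2 y := by
    have hfin' : {p ∈ P | aff A 2 p < 0}.Finite := hfP.subset (Set.sep_subset _ _)
    exact Set.exists_max_image _ (aff A 2) hfin' ⟨y0, hy0P, hy0⟩
  -- the point `ψ y` is outside the hull
  have hout : pmap A y ∉ convexHull ℝ (toR '' G) := by
    obtain ⟨b₀, b₁, b₂, hb⟩ := exists_phi hA
    have hsub : convexHull ℝ (toR '' G) ⊆ {x : ℝ × ℝ | 0 < b₀ * x.1 + b₁ * x.2 + b₂} := by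
      apply convexHull_min
      · rw [← himg]
        rintro _ ⟨p, ⟨-, hpZ⟩, rfl⟩
        have e := hb p
        have : b₀ * (pmap A p).1 + b₁ * (pmap A p).2 + b₂ = 1 / aff A 2 p := by
          simp only [pmap]
          field_simp
          linarith
        simp only [Set.mem_ofPred_eq, this]
        positivity
      · intro x hx x' hx' s t hs ht hst
        simp only [Set.mem_ofPred_eq, Prod.fst_add, Prod.smul_fst, Prod.snd_add, Prod.smul_snd,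
          smul_eq_mul] at *
        have e : b₀ * (s * x.1 + t * x'.1) + b₁ * (s * x.2 + t * x'.2) + b₂ =
            s * (b₀ * x.1 + b₁ * x.2 + b₂) + t * (b₀ * x'.1 + b₁ * x'.2 + b₂) := by
          have : s = 1 - t := by linarith
          subst this; ring
        rw [e]
        rcases hs.lt_or_eq with h | h
        · have := mul_pos h hx
          have := mul_nonneg ht hx'.le
          linarith
        · have : t = 1 := by linarith
          rw [← h, this]; linarith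
    intro hmem
    have h1 := hsub hmem
    simp only [Set.mem_ofPred_eq] at h1
    have e := hb y
    have hy' : aff A 2 y ≠ 0 := hy.ne
    have : b₀ * (pmap A y).1 + b₁ * (pmap A y).2 + b₂ = 1 / aff A 2 y := by
      simp only [pmap]
      field_simp
      linarith
    rw [this] at h1
    have := one_div_neg.2 hy
    linarith
  obtain ⟨w, hw, hray⟩ := hclear hp hM G hfin hG hW hh (pmap A y) hout
  -- the four corners
  have hex : ∀ ε₁ ε₂ : ℤ, (ε₁ = 0 ∨ ε₁ = 1) → (ε₂ = 0 ∨ ε₂ = 1) →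
      ∃ p ∈ P, 0 < aff A 2 p ∧ pmap A p = toR (w.1 + ε₁, w.2 + ε₂) := by
    intro ε₁ ε₂ h1 h2
    have : toR (w.1 + ε₁, w.2 + ε₂) ∈ toR '' G := ⟨_, hw ε₁ ε₂ h1 h2, rfl⟩
    rw [← himg] at this
    obtain ⟨p, ⟨hpP, hpZ⟩, hpe⟩ := this
    exact ⟨p, hpP, hpZ, hpe⟩
  obtain ⟨p00, h00P, h00Z, h00⟩ := hex 0 0 (Or.inl rfl) (Or.inl rfl)
  obtain ⟨p10, h10P, h10Z, h10⟩ := hex 1 0 (Or.inr rfl) (Or.inl rfl)
  obtain ⟨p01, h01P, h01Z, h01⟩ := hex 0 1 (Or.inl rfl) (Or.inr rfl)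
  obtain ⟨p11, h11P, h11Z, h11⟩ := hex 1 1 (Or.inr rfl) (Or.inr rfl)
  -- no point of `P` with image on an away ray
  have hno : ∀ r ∈ P, 0 < aff A 2 r → ∀ ε₁ ε₂ ε₁' ε₂' : ℤ, (ε₁ = 0 ∨ ε₁ = 1) →
      (ε₂ = 0 ∨ ε₂ = 1) → (ε₁' = 0 ∨ ε₁' = 1) → (ε₂' = 0 ∨ ε₂' = 1) → ∀ lam : ℝ, 0 < lam →
      pmap A r ≠ toR (w.1 + ε₁', w.2 + ε₂') + lam • (toR (w.1 + ε₁, w.2 + ε₂) - pmap A y) := by
    intro r hr hrZ ε₁ ε₂ ε₁' ε₂' e1 e2 e3 e4 lam hlam he
    apply hray ε₁ ε₂ ε₁' ε₂' e1 e2 e3 e4 lam hlam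
    rw [← he, ← himg]
    exact ⟨r, ⟨hr, hrZ⟩, rfl⟩
  -- the corners see each other
  have hcc : ∀ (p q : ℝ × ℝ) (a b : ℤ × ℤ), 0 < aff A 2 p → 0 < aff A 2 q → pmap A p = toR a →
      pmap A q = toR b → Int.gcd (b.1 - a.1) (b.2 - a.2) = 1 → Sees P p q := by
    intro p q a b hp hq ha hb hgcd
    apply sees_of_pmap hp hq
    rw [himg, ha, hb]
    exact sees_of_gcd_one G a b hgcd
  have s1 : Sees P p00 p10 := hcc _ _ _ _ h00Z h10Z h00 h10 (by simp)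
  have s2 : Sees P p00 p01 := hcc _ _ _ _ h00Z h01Z h00 h01 (by simp)
  have s3 : Sees P p00 p11 := hcc _ _ _ _ h00Z h11Z h00 h11 (by simp)
  have s4 : Sees P p10 p01 := hcc _ _ _ _ h10Z h01Z h10 h01 (by simp)
  have s5 : Sees P p10 p11 := hcc _ _ _ _ h10Z h11Z h10 h11 (by simp)
  have s6 : Sees P p01 p11 := hcc _ _ _ _ h01Z h11Z h01 h11 (by simp)
  -- a common neighbour of the corners gives a contradiction
  have hK5 : ∀ x ∈ P, (∀ (p : ℝ × ℝ) (ε₁ ε₂ : ℤ), (ε₁ = 0 ∨ ε₁ = 1) → (ε₂ = 0 ∨ ε₂ = 1) →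
      p ∈ P → 0 < aff A 2 p → pmap A p = toR (w.1 + ε₁, w.2 + ε₂) → Sees P p x) → False := by
    intro x hx hs
    exact hK.elim5 h00P h10P h01P h11P hx s1 s2 s3
      (hs p00 0 0 (Or.inl rfl) (Or.inl rfl) h00P h00Z h00) s4 s5
      (hs p10 1 0 (Or.inr rfl) (Or.inl rfl) h10P h10Z h10) s6
      (hs p01 0 1 (Or.inl rfl) (Or.inr rfl) h01P h01Z h01)
      (hs p11 1 1 (Or.inr rfl) (Or.inr rfl) h11P h11Z h11)
  -- blockers on the vanishing line are impossible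
  have hvan : ∀ (p : ℝ × ℝ) (ε₁ ε₂ : ℤ), (ε₁ = 0 ∨ ε₁ = 1) → (ε₂ = 0 ∨ ε₂ = 1) →
      p ∈ P → 0 < aff A 2 p → pmap A p = toR (w.1 + ε₁, w.2 + ε₂) →
      ∀ q ∈ P, q ∈ openSegment ℝ p y → aff A 2 q ≠ 0 := by
    intro p ε₁ ε₂ e1 e2 hpP hpZ hpe q hqP hqs hqZ
    obtain ⟨mu, hmu, hd⟩ := dict_zero hpZ hy hqs hqZ
    apply hK5 q hqP
    intro p' ε₁' ε₂' e3 e4 hpP' hpZ' hpe'
    refine ⟨fun e => ?_, fun r hr hrs => ?_⟩
    · rw [e, hqZ] at hpZ'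
      exact lt_irrefl _ hpZ'
    · obtain ⟨hrZ, lam, hlam, he⟩ := dict_van hpZ' hqZ hrs
      apply hno r hr hrZ ε₁ ε₂ ε₁' ε₂' e1 e2 e3 e4 (lam * mu) (by positivity)
      rw [he, hd, hpe', hpe, smul_smul]
  -- hence `y` sees the four corners
  apply hK5 y hyP
  intro p ε₁ ε₂ e1 e2 hpP hpZ hpe
  refine ⟨fun e => ?_, fun r hr hrs => ?_⟩
  · rw [e] at hpZ
    linarith
  · rcases lt_trichotomy (aff A 2 r) 0 with h | h | h
    · have := hmax r ⟨hr, h⟩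
      obtain ⟨s, t, hs, ht, hst, rfl⟩ := hrs
      rw [aff_comb A 2 p y hst] at this
      have h1 : t = 1 - s := by linarith
      rw [h1] at this
      nlinarith
    · exact hvan p ε₁ ε₂ e1 e2 hpP hpZ hpe r hr hrs h
    · obtain ⟨lam, hlam, he⟩ := dict_pos hpZ hy hrs h
      apply hno r hr h ε₁ ε₂ ε₁ ε₂ e1 e2 e1 e2 lam hlam
      rw [he, hpe]

/-- Changing the coordinates of the target by a unimodular affine map. -/
theorem change (G : Set (ℤ × ℤ)) (P : Set (ℝ × ℝ)) (A : Matrix (Fin 3) (Fin 3) ℝ)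
    (hA : A.det ≠ 0) (himg : pmap A '' {p ∈ P | 0 < aff A 2 p} = toR '' G)
    (o u v : ℤ × ℤ) (huv : IsBas u v) :
    ∃ A' : Matrix (Fin 3) (Fin 3) ℝ, A'.det ≠ 0 ∧ (∀ p, aff A' 2 p = aff A 2 p) ∧
      pmap A' '' {p ∈ P | 0 < aff A' 2 p} = toR '' (umap o u v ⁻¹' G) := by
  obtain ⟨δ, hδ, hd⟩ : ∃ δ : ℝ, (δ = 1 ∨ δ = -1) ∧ (u.1 : ℝ) * v.2 - u.2 * v.1 = δ := by
    rcases huv with h | h
    · exact ⟨1, Or.inl rfl, by exact_mod_cast h⟩
    · exact ⟨-1, Or.inr rfl, by exact_mod_cast h⟩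
  have hδ2 : δ * δ = 1 := by rcases hδ with rfl | rfl <;> norm_num
  have hδ0 : δ ≠ 0 := by rcases hδ with rfl | rfl <;> norm_num
  set A' : Matrix (Fin 3) (Fin 3) ℝ := Matrix.of ![
    fun j => δ * (v.2 * (A 0 j - o.1 * A 2 j) - v.1 * (A 1 j - o.2 * A 2 j)),
    fun j => δ * (-u.2 * (A 0 j - o.1 * A 2 j) + u.1 * (A 1 j - o.2 * A 2 j)),
    fun j => A 2 j] with hA'
  have r0 : ∀ j, A' 0 j = δ * (v.2 * (A 0 j - o.1 * A 2 j) - v.1 * (A 1 j - o.2 * A 2 j)) :=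
    fun j => rfl
  have r1 : ∀ j, A' 1 j = δ * (-u.2 * (A 0 j - o.1 * A 2 j) + u.1 * (A 1 j - o.2 * A 2 j)) :=
    fun j => rfl
  have r2 : ∀ j, A' 2 j = A 2 j := fun j => rfl
  have f2 : ∀ p, aff A' 2 p = aff A 2 p := fun p => by simp only [aff, r2]
  have f0 : ∀ p, aff A' 0 p = δ * (v.2 * (aff A 0 p - o.1 * aff A 2 p) -
      v.1 * (aff A 1 p - o.2 * aff A 2 p)) := fun p => by simp only [aff, r0]; ring
  have f1 : ∀ p, aff A' 1 p = δ * (-u.2 * (aff A 0 p - o.1 * aff A 2 p) +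
      u.1 * (aff A 1 p - o.2 * aff A 2 p)) := fun p => by simp only [aff, r1]; ring
  -- relation between the two maps
  have hrel : ∀ p, aff A 2 p ≠ 0 → pmap A p = (o.1 + (pmap A' p).1 * u.1 + (pmap A' p).2 * v.1,
      o.2 + (pmap A' p).1 * u.2 + (pmap A' p).2 * v.2) := by
    intro p hp
    simp only [pmap, f2, f0, f1]
    ext
    · simp only
      field_simp
      linear_combination (-(aff A 0 p - o.1 * aff A 2 p) * δ) * hd -
        (aff A 0 p - o.1 * aff A 2 p) * hδ2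
    · simp only
      field_simp
      linear_combination (-(aff A 1 p - o.2 * aff A 2 p) * δ) * hd -
        (aff A 1 p - o.2 * aff A 2 p) * hδ2
  have hinj : ∀ a b c d : ℝ, a * u.1 + b * v.1 = c * u.1 + d * v.1 →
      a * u.2 + b * v.2 = c * u.2 + d * v.2 → a = c ∧ b = d := by
    intro a b c d h1 h2
    constructor
    · have : (a - c) * δ = 0 := by
        rw [← hd]; linear_combination v.2 * h1 - v.1 * h2
      have := (mul_eq_zero.1 this).resolve_right hδ0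
      linarith
    · have : (b - d) * δ = 0 := by
        rw [← hd]; linear_combination (-u.2 : ℝ) * h1 + u.1 * h2
      have := (mul_eq_zero.1 this).resolve_right hδ0
      linarith
  refine ⟨A', ?_, f2, ?_⟩
  · have : A'.det = δ * A.det := by
      rw [Matrix.det_fin_three, Matrix.det_fin_three]
      simp only [r0, r1, r2]
      linear_combination (δ * (A 0 0 * A 1 1 * A 2 2 - A 0 0 * A 1 2 * A 2 1 -
        A 0 1 * A 1 0 * A 2 2 + A 0 1 * A 1 2 * A 2 0 + A 0 2 * A 1 0 * A 2 1 -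
        A 0 2 * A 1 1 * A 2 0)) * (δ * hd + hδ2) 
    rw [this]
    exact mul_ne_zero hδ0 hA
  · ext q
    constructor
    · rintro ⟨p, ⟨hpP, hpZ⟩, rfl⟩
      rw [f2] at hpZ
      have hm : pmap A p ∈ toR '' G := by rw [← himg]; exact ⟨p, ⟨hpP, hpZ⟩, rfl⟩
      obtain ⟨g, hg, hge⟩ := hm
      rw [hrel p hpZ.ne'] at hge
      have g1 := congrArg Prod.fst hge
      have g2 := congrArg Prod.snd hge
      simp only [toR] at g1 g2
      -- integral preimage of `g`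
      obtain ⟨δ', hδ'2, hd'⟩ : ∃ δ' : ℤ, δ' * δ' = 1 ∧ u.1 * v.2 - u.2 * v.1 = δ' := by
        rcases huv with h | h
        · exact ⟨1, by norm_num, h⟩
        · exact ⟨-1, by norm_num, h⟩
      have hz : umap o u v (δ' * (v.2 * (g.1 - o.1) - v.1 * (g.2 - o.2)),
          δ' * (-u.2 * (g.1 - o.1) + u.1 * (g.2 - o.2))) = g := by
        apply Prod.ext
        · simp only [umap]
          linear_combination ((g.1 - o.1) * δ') * hd' + (g.1 - o.1) * hδ'2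
        · simp only [umap]
          linear_combination ((g.2 - o.2) * δ') * hd' + (g.2 - o.2) * hδ'2
      set z : ℤ × ℤ := (δ' * (v.2 * (g.1 - o.1) - v.1 * (g.2 - o.2)),
          δ' * (-u.2 * (g.1 - o.1) + u.1 * (g.2 - o.2))) with hzdef
      refine ⟨z, by rw [Set.mem_preimage, hz]; exact hg, ?_⟩
      have z1 := congrArg Prod.fst hz
      have z2 := congrArg Prod.snd hz
      simp only [umap] at z1 z2
      have z1' : (o.1 : ℝ) + z.1 * u.1 + z.2 * v.1 = g.1 := by exact_mod_cast z1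
      have z2' : (o.2 : ℝ) + z.1 * u.2 + z.2 * v.2 = g.2 := by exact_mod_cast z2
      obtain ⟨a1, a2⟩ := hinj z.1 z.2 (pmap A' p).1 (pmap A' p).2 (by linarith) (by linarith)
      exact Prod.ext a1 a2
    · rintro ⟨z, hz, rfl⟩
      have hm : toR (umap o u v z) ∈ toR '' G := ⟨_, hz, rfl⟩
      rw [← himg] at hm
      obtain ⟨p, ⟨hpP, hpZ⟩, hpe⟩ := hm
      refine ⟨p, ⟨hpP, by rw [f2]; exact hpZ⟩, ?_⟩
      rw [hrel p hpZ.ne'] at hpe
      have g1 := congrArg Prod.fst hpe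
      have g2 := congrArg Prod.snd hpe
      simp only [toR, umap] at g1 g2
      push_cast at g1 g2
      obtain ⟨a1, a2⟩ := hinj (pmap A' p).1 (pmap A' p).2 z.1 z.2 (by linarith) (by linarith)
      exact Prod.ext a1 a2

open Classical in
/-- The colouring. -/
noncomputable def colr (A : Matrix (Fin 3) (Fin 3) ℝ) (c : ℝ × ℝ → ℕ) (p : ℝ × ℝ) : Fin 6 :=
  if aff A 2 p = 0 then (if c p % 2 = 0 then 4 else 5)
  else if h : ∃ z : ℤ × ℤ, toR z = pmap A p then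
    (if (2 : ℤ) ∣ h.choose.1 then (if (2 : ℤ) ∣ h.choose.2 then 0 else 1)
     else (if (2 : ℤ) ∣ h.choose.2 then 2 else 3)) else 0

lemma colr_lab (A : Matrix (Fin 3) (Fin 3) ℝ) (c : ℝ × ℝ → ℕ) (p : ℝ × ℝ) (z : ℤ × ℤ)
    (hp : aff A 2 p ≠ 0) (hz : toR z = pmap A p) :
    colr A c p = (if (2 : ℤ) ∣ z.1 then (if (2 : ℤ) ∣ z.2 then 0 else 1)
      else (if (2 : ℤ) ∣ z.2 then 2 else 3)) := by
  have h : ∃ z : ℤ × ℤ, toR z = pmap A p := ⟨z, hz⟩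
  have hc : h.choose = z := toR_injective (by rw [h.choose_spec, hz])
  unfold colr
  rw [if_neg hp, dif_pos h, hc]

lemma lab_eq (z z' : ℤ × ℤ)
    (h : (if (2 : ℤ) ∣ z.1 then (if (2 : ℤ) ∣ z.2 then (0 : Fin 6) else 1)
      else (if (2 : ℤ) ∣ z.2 then 2 else 3)) = (if (2 : ℤ) ∣ z'.1 then
      (if (2 : ℤ) ∣ z'.2 then 0 else 1) else (if (2 : ℤ) ∣ z'.2 then 2 else 3))) :
    SameLab z z' := by
  unfold SameLab
  by_cases h1 : (2 : ℤ) ∣ z.1 <;> by_cases h2 : (2 : ℤ) ∣ z.2 <;>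
    by_cases h3 : (2 : ℤ) ∣ z'.1 <;> by_cases h4 : (2 : ℤ) ∣ z'.2 <;>
    simp only [h1, h2, h3, h4, if_true, if_false] at h <;>
    first
      | exact absurd h (by decide)
      | (constructor <;> omega)

/-- III.9, final statement, from the three inputs. -/
theorem vanishing_of (hA3 : StatA) (hmax : StatMax) (hclear : StatClear) :
    ∃ M₀ : ℕ, ∀ M : ℕ, M₀ ≤ M → ∀ P : Set (ℝ × ℝ), P.Finite → K5free P →
    ∀ A : Matrix (Fin 3) (Fin 3) ℝ, A.det ≠ 0 →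
    toR '' Box M ⊆ pmap A '' {p ∈ P | 0 < aff A 2 p} →
    (∀ p ∈ P, 0 < aff A 2 p → 0 ≤ (pmap A p).1 → (pmap A p).1 ≤ M → 0 ≤ (pmap A p).2 →
      (pmap A p).2 ≤ M → pmap A p ∈ toR '' Box M) →
    ∃ col : ℝ × ℝ → Fin 6, ∀ p ∈ P, ∀ q ∈ P, Sees P p q → col p ≠ col q := by
  obtain ⟨M₁, hM₁⟩ := hA3
  obtain ⟨M₂, hM₂⟩ := hmax
  refine ⟨max M₁ M₂, fun M hM P hfP hK A hA hW hin => ?_⟩
  have hfin1 : (pmap A '' {p ∈ P | 0 < aff A 2 p}).Finite :=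
    (hfP.subset (Set.sep_subset _ _)).image _
  obtain ⟨G, hPG, hG⟩ := hM₁ M (le_trans (le_max_left _ _) hM) _ hfin1 (K5free_pmap hK) hW (by
    rintro _ ⟨p, ⟨hp, hpZ⟩, rfl⟩ h1 h2 h3 h4
    exact hin p hp hpZ h1 h2 h3 h4)
  have hGfin : G.Finite := by
    rw [hPG] at hfin1
    exact hfin1.of_finite_image (toR_injective.injOn)
  have hBox : Box M₂ ⊆ G := by
    intro z hz
    have hz' : z ∈ Box M := by
      obtain ⟨h1, h2, h3, h4⟩ := hz
      have : (M₂ : ℤ) ≤ M := by exact_mod_cast le_trans (le_max_right _ _) hM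
      exact ⟨h1, h2.trans this, h3, h4.trans this⟩
    have := hW ⟨z, hz', rfl⟩
    rw [hPG] at this
    exact mem_toR_image.1 this
  obtain ⟨M', R, K, hpar, h5, -, o, u, v, huv, hW', hG', hfin', -, hhand⟩ :=
    hM₂ G hGfin hG hBox
  obtain ⟨A', hA', hZ', himg'⟩ := change G P A hA hPG o u v huv
  have hneg := core hclear hpar h5 _ hfin' hG' hW' hhand P hfP hK A' hA' himg'
  obtain ⟨c, hc⟩ := line_col A hA P hfP
  refine ⟨colr A c, fun p hp q hq hs => ?_⟩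
  have hsgn : ∀ p ∈ P, aff A 2 p = 0 ∨ 0 < aff A 2 p := by
    intro p hp
    have := hneg p hp
    rw [hZ'] at this
    rcases lt_trichotomy (aff A 2 p) 0 with h | h | h
    · exact absurd h this
    · exact Or.inl h
    · exact Or.inr h
  have hpos : ∀ p ∈ P, 0 < aff A 2 p → ∃ z ∈ G, toR z = pmap A p := by
    intro p hp hpZ
    have : pmap A p ∈ toR '' G := by rw [← hPG]; exact ⟨p, ⟨hp, hpZ⟩, rfl⟩
    exact this
  rcases hsgn p hp with h1 | h1 <;> rcases hsgn q hq with h2 | h2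
  · have := hc p hp q hq h1 h2 hs
    unfold colr
    rw [if_pos h1, if_pos h2]
    rcases Nat.mod_two_eq_zero_or_one (c p) with e1 | e1 <;>
      rcases Nat.mod_two_eq_zero_or_one (c q) with e2 | e2 <;> simp_all
  · obtain ⟨z, hz, hze⟩ := hpos q hq h2
    rw [colr_lab A c q z h2.ne' hze]
    unfold colr
    rw [if_pos h1]
    split_ifs <;> decide
  · obtain ⟨z, hz, hze⟩ := hpos p hp h1
    rw [colr_lab A c p z h1.ne' hze]
    unfold colr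
    rw [if_pos h2]
    split_ifs <;> decide
  · obtain ⟨z, hz, hze⟩ := hpos p hp h1
    obtain ⟨z', hz', hze'⟩ := hpos q hq h2
    rw [colr_lab A c p z h1.ne' hze, colr_lab A c q z' h2.ne' hze']
    intro hcol
    have hne : z ≠ z' := by
      rintro rfl
      exact hs.1 (pmap_inj hA h1.ne' h2.ne' (hze.symm.trans hze'))
    have hlab : SameLab z z' := lab_eq z z' hcol
    obtain ⟨x, hx, hxs⟩ := hG z hz z' hz' hne hlab
    rw [hze, hze'] at hxs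
    obtain ⟨r, hrs, hrZ, hre⟩ := pmap_between_inv h1 h2 hxs
    have hm : toR x ∈ pmap A '' {p ∈ P | 0 < aff A 2 p} := by rw [hPG]; exact ⟨x, hx, rfl⟩
    obtain ⟨r', ⟨hr'P, hr'Z⟩, hr'e⟩ := hm
    have : r' = r := pmap_inj hA hr'Z.ne' hrZ.ne' (hr'e.trans hre.symm)
    subst this
    exact hs.2 r' hr'P hrs

/-- The same with `WindowHyp`. -/
theorem vanishing_window (hA3 : StatA) (hmax : StatMax) (hclear : StatClear) :
    ∃ M₀ : ℕ, ∀ M : ℕ, M₀ ≤ M → ∀ P : Set (ℝ × ℝ), P.Finite → K5free P →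
    ∀ A : Matrix (Fin 3) (Fin 3) ℝ, WindowHyp P A M →
    ∃ col : ℝ × ℝ → Fin 6, ∀ p ∈ P, ∀ q ∈ P, Sees P p q → col p ≠ col q := by
  obtain ⟨M₀, h⟩ := vanishing_of hA3 hmax hclear
  exact ⟨M₀, fun M hM P hf hK A hW => h M hM P hf hK A hW.1 hW.2.1 hW.2.2⟩

end Pool.Agent.helper68.Vis
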