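import Pool.Agent.helper88.Vis.Defs

set_option autoImplicit false

/-!
# MP_6b3417_co, part I, module I-B1: hull edges
-/

namespace Pool.Agent.helper68.Vis

open Pool.Agent.helper47.Vis Pool.Agent.helper88.Vis

/-- If all points are on the line `p q`, the set is collinear. -/
lemma not_nonCol_of {P : Finset (ℝ × ℝ)} {p q : ℝ × ℝ} (hpq : p ≠ q)
    (h : ∀ r ∈ P, ori p q r = 0) : ¬ NonCol P := by
  rintro ⟨a, ha, b, hb, c, hc, hne⟩
  apply hne
  have ea := h a ha
  have eb := h b hb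
  have ec := h c hc
  simp only [ori] at ea eb ec ⊢
  have hd : (q.1 - p.1) ^ 2 + (q.2 - p.2) ^ 2 ≠ 0 := by
    intro h0
    have h1 : q.1 - p.1 = 0 := by nlinarith [sq_nonneg (q.1 - p.1), sq_nonneg (q.2 - p.2)]
    have h2 : q.2 - p.2 = 0 := by nlinarith [sq_nonneg (q.1 - p.1), sq_nonneg (q.2 - p.2)]
    exact hpq (Prod.ext (by linarith) (by linarith))
  have key : ((q.1 - p.1) ^ 2 + (q.2 - p.2) ^ 2) *
      ((b.1 - a.1) * (c.2 - a.2) - (b.2 - a.2) * (c.1 - a.1)) = 0 := by
    linear_combination ((q.1 - p.1) * (b.1 - a.1) + (q.2 - p.2) * (b.2 - a.2)) * (ec - ea) -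
      ((q.1 - p.1) * (c.1 - a.1) + (q.2 - p.2) * (c.2 - a.2)) * (eb - ea)
  exact (mul_eq_zero.1 key).resolve_left hd

theorem mem_Bd_of_not_nonCol (P : Finset (ℝ × ℝ)) (h : ¬ NonCol P) : ∀ p ∈ P, p ∈ Bd P := by
  intro p hp
  rw [Bd, mem_fil]
  refine ⟨hp, ?_⟩
  by_cases hex : ∃ q ∈ P, q ≠ p
  · obtain ⟨q, hq, hne⟩ := hex
    refine ⟨(-(q.2 - p.2), q.1 - p.1), ?_, ?_⟩
    · intro h0
      rw [Prod.mk_eq_zero] at h0
      exact hne (Prod.ext (by linarith [h0.2]) (by linarith [h0.1]))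
    · intro r hr
      have : ori p q r = 0 := by
        by_contra hne'
        exact h ⟨p, hp, q, hq, r, hr, hne'⟩
      simp only [ori] at this
      simp only
      linarith
  · push Not at hex
    refine ⟨(1, 0), by simp, fun r hr => ?_⟩
    rw [hex r hr]

theorem edge_mem_Bd {P : Finset (ℝ × ℝ)} {p q : ℝ × ℝ} (h : Edge P p q) :
    p ∈ Bd P ∧ q ∈ Bd P := by
  have hf : ((-(q.2 - p.2), q.1 - p.1) : ℝ × ℝ) ≠ 0 := by
    intro h0
    rw [Prod.mk_eq_zero] at h0
    exact h.ne (Prod.ext (by linarith [h0.2]) (by linarith [h0.1]))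
  constructor
  · rw [Bd, mem_fil]
    refine ⟨h.hp, _, hf, fun r hr => ?_⟩
    have := h.left r hr
    simp only [ori] at this
    simp only
    linarith
  · rw [Bd, mem_fil]
    refine ⟨h.hq, _, hf, fun r hr => ?_⟩
    have := h.left r hr
    simp only [ori] at this
    simp only
    linarith

/-- An interior point of `P` is strictly left of every edge. -/
theorem edge_interior {P : Finset (ℝ × ℝ)} {z : ℝ × ℝ} (hz : z ∈ P) (hzB : z ∉ Bd P)
    {p q : ℝ × ℝ} (h : Edge P p q) : 0 < ori p q z := by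
  rcases (h.left z hz).lt_or_eq with h0 | h0
  · exact h0
  · exfalso
    apply hzB
    rw [Bd, mem_fil]
    refine ⟨hz, (-(q.2 - p.2), q.1 - p.1), ?_, fun r hr => ?_⟩
    · intro h0
      rw [Prod.mk_eq_zero] at h0
      exact h.ne (Prod.ext (by linarith [h0.2]) (by linarith [h0.1]))
    · have := h.left r hr
      simp only [ori] at this h0
      simp only
      linarith

theorem edge_unique {P : Finset (ℝ × ℝ)} (h : NonCol P) {p q q' : ℝ × ℝ} (h1 : Edge P p q)
    (h2 : Edge P p q') : q = q' := by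
  have e1 := h1.left q' h2.hq
  have e2 := h2.left q h1.hq
  have e : ori p q q' = 0 := by
    have : ori p q' q = - ori p q q' := by simp only [ori]; ring
    linarith
  -- `q' - p = t (q - p)`
  have hd : 0 < (q.1 - p.1) ^ 2 + (q.2 - p.2) ^ 2 := by
    rcases (add_nonneg (sq_nonneg (q.1 - p.1)) (sq_nonneg (q.2 - p.2))).lt_or_eq with h | h0
    · exact h
    · exfalso
      have g1 : q.1 - p.1 = 0 := by nlinarith [sq_nonneg (q.1 - p.1), sq_nonneg (q.2 - p.2)]
      have g2 : q.2 - p.2 = 0 := by nlinarith [sq_nonneg (q.1 - p.1), sq_nonneg (q.2 - p.2)]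
      exact h1.ne (Prod.ext (by linarith) (by linarith))
  obtain ⟨t, ht1, ht2⟩ : ∃ t : ℝ, q'.1 - p.1 = t * (q.1 - p.1) ∧ q'.2 - p.2 = t * (q.2 - p.2) := by
    refine ⟨((q'.1 - p.1) * (q.1 - p.1) + (q'.2 - p.2) * (q.2 - p.2)) /
      ((q.1 - p.1) ^ 2 + (q.2 - p.2) ^ 2), ?_, ?_⟩
    · simp only [ori] at e
      field_simp
      linear_combination (-(q.2 - p.2)) * e
    · simp only [ori] at e
      field_simp
      linear_combination (q.1 - p.1) * e
  rcases lt_trichotomy t 0 with ht | ht | ht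
  · exfalso
    refine not_nonCol_of h1.ne (fun r hr => ?_) h
    have f1 := h1.left r hr
    have f2 := h2.left r hr
    have : ori p q' r = t * ori p q r := by
      simp only [ori]
      rw [ht1, ht2]; ring
    rw [this] at f2
    nlinarith
  · exfalso
    apply h2.ne
    rw [ht] at ht1 ht2
    exact Prod.ext (by linarith) (by linarith)
  · rcases lt_trichotomy t 1 with ht' | ht' | ht'
    · exfalso
      apply h1.empty q' h2.hq
      refine ⟨1 - t, t, by linarith, ht, by ring, ?_⟩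
      ext
      · simp only [Prod.fst_add, Prod.smul_fst, smul_eq_mul]; linarith
      · simp only [Prod.snd_add, Prod.smul_snd, smul_eq_mul]; linarith
    · rw [ht'] at ht1 ht2
      exact Prod.ext (by linarith) (by linarith)
    · exfalso
      apply h2.empty q h1.hq
      have hinv : t * t⁻¹ = 1 := mul_inv_cancel₀ ht.ne'
      refine ⟨1 - t⁻¹, t⁻¹, ?_, by positivity, by ring, ?_⟩
      · have : t⁻¹ < 1 := inv_lt_one_of_one_lt₀ ht'
        linarith
      ext
      · simp only [Prod.fst_add, Prod.smul_fst, smul_eq_mul]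
        linear_combination t⁻¹ * ht1 + (q.1 - p.1) * hinv
      · simp only [Prod.snd_add, Prod.smul_snd, smul_eq_mul]
        linear_combination t⁻¹ * ht2 + (q.2 - p.2) * hinv

/-- A point `q` with all points of `P` to the left of `p → q`. -/
lemma exists_left (P : Finset (ℝ × ℝ)) (h : NonCol P) (p : ℝ × ℝ) (hp : p ∈ Bd P) :
    ∃ q ∈ P, q ≠ p ∧ ∀ r ∈ P, 0 ≤ ori p q r := by
  classical
  rw [Bd, mem_fil] at hp
  obtain ⟨hpP, f, hf, hmin⟩ := hp
  have hff : 0 < f.1 ^ 2 + f.2 ^ 2 := by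
    rcases (add_nonneg (sq_nonneg f.1) (sq_nonneg f.2)).lt_or_eq with h | h0
    · exact h
    · exfalso
      have g1 : f.1 = 0 := by nlinarith [sq_nonneg f.1, sq_nonneg f.2]
      have g2 : f.2 = 0 := by nlinarith [sq_nonneg f.1, sq_nonneg f.2]
      exact hf (Prod.ext g1 g2)
  -- heights and abscissas
  set H : ℝ × ℝ → ℝ := fun r => f.1 * (r.1 - p.1) + f.2 * (r.2 - p.2) with hH
  set U : ℝ × ℝ → ℝ := fun r => f.2 * (r.1 - p.1) - f.1 * (r.2 - p.2) with hU
  have hori : ∀ q r, (f.1 ^ 2 + f.2 ^ 2) * ori p q r = U q * H r - H q * U r := by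
    intro q r
    simp only [hH, hU, ori]
    ring
  have hH0 : ∀ r ∈ P, 0 ≤ H r := by
    intro r hr
    have := hmin r hr
    simp only [hH]
    linarith
  have hzero : ∀ r, H r = 0 → U r = 0 → r = p := by
    intro r h1 h2
    simp only [hH] at h1
    simp only [hU] at h2
    have e1 : (f.1 ^ 2 + f.2 ^ 2) * (r.1 - p.1) = 0 := by
      linear_combination f.1 * h1 + f.2 * h2
    have e2 : (f.1 ^ 2 + f.2 ^ 2) * (r.2 - p.2) = 0 := by
      linear_combination f.2 * h1 - f.1 * h2
    have f1 := (mul_eq_zero.1 e1).resolve_left hff.ne'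
    have f2 := (mul_eq_zero.1 e2).resolve_left hff.ne'
    exact Prod.ext (by linarith) (by linarith)
  have hfin : ∀ q r, 0 ≤ U q * H r - H q * U r → 0 ≤ ori p q r := by
    intro q r h1
    rw [← hori q r] at h1
    exact nonneg_of_mul_nonneg_right h1 hff
  by_cases hex : ∃ q ∈ P, H q = 0 ∧ 0 < U q
  · obtain ⟨q, hq, hq0, hqU⟩ := hex
    refine ⟨q, hq, ?_, fun r hr => hfin q r ?_⟩
    · rintro rfl
      simp [hU] at hqU
    · rw [hq0]
      have := mul_nonneg hqU.le (hH0 r hr)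
      linarith
  · push Not at hex
    -- some point has positive height
    obtain ⟨b, hb, hbH⟩ : ∃ b ∈ P, 0 < H b := by
      by_contra hcon
      push Not at hcon
      have hall : ∀ r ∈ P, H r = 0 := fun r hr => le_antisymm (hcon r hr) (hH0 r hr)
      obtain ⟨a, ha, b, hb, c, hc, hne⟩ := h
      apply hne
      have ea := hall a ha
      have eb := hall b hb
      have ec := hall c hc
      simp only [hH] at ea eb ec
      simp only [ori]
      have key : (f.1 ^ 2 + f.2 ^ 2) *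
          ((b.1 - a.1) * (c.2 - a.2) - (b.2 - a.2) * (c.1 - a.1)) = 0 := by
        linear_combination (f.2 * (b.1 - a.1) - f.1 * (b.2 - a.2)) * (ec - ea) -
          (f.2 * (c.1 - a.1) - f.1 * (c.2 - a.2)) * (eb - ea)
      exact (mul_eq_zero.1 key).resolve_left hff.ne'
    obtain ⟨q, hq, hqm⟩ := Finset.exists_max_image (P.filter (fun r => 0 < H r))
      (fun r => U r / H r) ⟨b, Finset.mem_filter.2 ⟨hb, hbH⟩⟩
    rw [Finset.mem_filter] at hq
    refine ⟨q, hq.1, ?_, fun r hr => hfin q r ?_⟩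
    · rintro rfl
      have := hq.2
      simp [hH] at this
    · rcases (hH0 r hr).lt_or_eq with h1 | h1
      · have := hqm r (Finset.mem_filter.2 ⟨hr, h1⟩)
        rw [div_le_div_iff₀ h1 hq.2] at this
        linarith
      · rw [← h1]
        have := hex r hr h1.symm
        nlinarith [hq.2]

theorem exists_edge (P : Finset (ℝ × ℝ)) (h : NonCol P) (p : ℝ × ℝ) (hp : p ∈ Bd P) :
    ∃ q, Edge P p q := by
  classical
  obtain ⟨q₀, hq₀, hne₀, hleft₀⟩ := exists_left P h p hp
  have hpP : p ∈ P := (mem_fil.1 hp).1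
  obtain ⟨q, hq, hqm⟩ := Finset.exists_min_image
    (P.filter (fun q => q ≠ p ∧ ∀ r ∈ P, 0 ≤ ori p q r))
    (fun r => (r.1 - p.1) ^ 2 + (r.2 - p.2) ^ 2)
    ⟨q₀, Finset.mem_filter.2 ⟨hq₀, hne₀, hleft₀⟩⟩
  rw [Finset.mem_filter] at hq
  obtain ⟨hqP, hqne, hql⟩ := hq
  refine ⟨q, hpP, hqP, hqne.symm, hql, fun r hr hrs => ?_⟩
  obtain ⟨s, t, hs, ht, hst, hre⟩ := hrs
  have hs' : s = 1 - t := by linarith
  have r1 : r.1 - p.1 = t * (q.1 - p.1) := by
    rw [← hre]
    simp only [Prod.fst_add, Prod.smul_fst, smul_eq_mul]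
    rw [hs']; ring
  have r2 : r.2 - p.2 = t * (q.2 - p.2) := by
    rw [← hre]
    simp only [Prod.snd_add, Prod.smul_snd, smul_eq_mul]
    rw [hs']; ring
  have hd : 0 < (q.1 - p.1) ^ 2 + (q.2 - p.2) ^ 2 := by
    rcases (add_nonneg (sq_nonneg (q.1 - p.1)) (sq_nonneg (q.2 - p.2))).lt_or_eq with h | h0
    · exact h
    · exfalso
      have g1 : q.1 - p.1 = 0 := by nlinarith [sq_nonneg (q.1 - p.1), sq_nonneg (q.2 - p.2)]
      have g2 : q.2 - p.2 = 0 := by nlinarith [sq_nonneg (q.1 - p.1), sq_nonneg (q.2 - p.2)]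
      exact hqne (Prod.ext (by linarith) (by linarith))
  have hrn : r ≠ p := by
    rintro rfl
    have g1 : q.1 - r.1 = 0 := by
      have : t * (q.1 - r.1) = 0 := by linarith
      exact (mul_eq_zero.1 this).resolve_left ht.ne'
    have g2 : q.2 - r.2 = 0 := by
      have : t * (q.2 - r.2) = 0 := by linarith
      exact (mul_eq_zero.1 this).resolve_left ht.ne'
    exact hqne (Prod.ext (by linarith) (by linarith))
  have := hqm r (Finset.mem_filter.2 ⟨hr, hrn, fun r' hr' => by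
    have e : ori p r r' = t * ori p q r' := by
      simp only [ori]
      rw [r1, r2]; ring
    rw [e]
    exact mul_nonneg ht.le (hql r' hr')⟩)
  rw [r1, r2] at this
  have ht1 : t < 1 := by linarith
  have h3 : (t * (q.1 - p.1)) ^ 2 + (t * (q.2 - p.2)) ^ 2 =
      t ^ 2 * ((q.1 - p.1) ^ 2 + (q.2 - p.2) ^ 2) := by ring
  rw [h3] at this
  have h4 : t ^ 2 < 1 := by nlinarith
  nlinarith

end Pool.Agent.helper68.Vis
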