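import Pool.Agent.helper47.Vis.Rows

set_option autoImplicit false

/-!
# MP_6b3417_co, part II (parallel rows), module P6: composition with a projective chart
-/

namespace Pool.Agent.helper68.Vis

open Pool.Agent.helper47.Vis

lemma aff_mul (A B : Matrix (Fin 3) (Fin 3) ℝ) (i : Fin 3) (p : ℝ × ℝ) :
    aff (A * B) i p = A i 0 * aff B 0 p + A i 1 * aff B 1 p + A i 2 * aff B 2 p := by
  simp only [aff, Matrix.mul_apply, Fin.sum_univ_three]
  ring

lemma aff_mul' (A B : Matrix (Fin 3) (Fin 3) ℝ) (i : Fin 3) (p : ℝ × ℝ) (hp : aff B 2 p ≠ 0) :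
    aff (A * B) i p = aff B 2 p * aff A i (pmap B p) := by
  rw [aff_mul]
  have : aff A i (pmap B p) = A i 0 * (aff B 0 p / aff B 2 p) + A i 1 * (aff B 1 p / aff B 2 p) +
      A i 2 := rfl
  rw [this]
  field_simp

lemma pmap_mul (A B : Matrix (Fin 3) (Fin 3) ℝ) (p : ℝ × ℝ) (hp : aff B 2 p ≠ 0) :
    pmap (A * B) p = pmap A (pmap B p) := by
  have : pmap A (pmap B p) = (aff A 0 (pmap B p) / aff A 2 (pmap B p),
    aff A 1 (pmap B p) / aff A 2 (pmap B p)) := rfl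
  rw [this]
  have : pmap (A * B) p = (aff (A * B) 0 p / aff (A * B) 2 p,
    aff (A * B) 1 p / aff (A * B) 2 p) := rfl
  rw [this, aff_mul' A B 0 p hp, aff_mul' A B 1 p hp, aff_mul' A B 2 p hp,
    mul_div_mul_left _ _ hp, mul_div_mul_left _ _ hp]

/-- Third row of the inverse. -/
lemma exists_row {A : Matrix (Fin 3) (Fin 3) ℝ} (hA : A.det ≠ 0) :
    ∃ b₀ b₁ b₂ : ℝ, ∀ x y z : ℝ, b₀ * (A 0 0 * x + A 0 1 * y + A 0 2 * z) +
      b₁ * (A 1 0 * x + A 1 1 * y + A 1 2 * z) + b₂ * (A 2 0 * x + A 2 1 * y + A 2 2 * z) = z := by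
  have hm : A⁻¹ * A = 1 := Matrix.nonsing_inv_mul A (isUnit_iff_ne_zero.2 hA)
  have e0 := congrFun (congrFun hm 2) 0
  have e1 := congrFun (congrFun hm 2) 1
  have e2 := congrFun (congrFun hm 2) 2
  rw [Matrix.mul_apply, Fin.sum_univ_three] at e0 e1 e2
  rw [Matrix.one_apply_ne (by decide)] at e0
  rw [Matrix.one_apply_ne (by decide)] at e1
  rw [Matrix.one_apply_eq] at e2
  refine ⟨A⁻¹ 2 0, A⁻¹ 2 1, A⁻¹ 2 2, fun x y z => ?_⟩
  linear_combination x * e0 + y * e1 + z * e2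

lemma affine_pos (a b c M s t : ℝ) (hs : 0 ≤ s) (hs' : s ≤ M) (ht : 0 ≤ t) (ht' : t ≤ M)
    (h00 : 0 < c) (h10 : 0 < a * M + c) (h01 : 0 < b * M + c) (h11 : 0 < a * M + b * M + c) :
    0 < a * s + b * t + c := by
  have f0 : 0 < a * s + c := by
    rcases le_total 0 a with h | h
    · have := mul_nonneg h hs; linarith
    · have := mul_le_mul_of_nonpos_left hs' h; linarith
  have f1 : 0 < a * s + b * M + c := by
    rcases le_total 0 a with h | h
    · have := mul_nonneg h hs; linarith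
    · have := mul_le_mul_of_nonpos_left hs' h; linarith
  rcases le_total 0 b with h | h
  · have := mul_nonneg h ht; linarith
  · have := mul_le_mul_of_nonpos_left ht' h; linarith

/-- Module P6: composition with a projective chart. -/
theorem windowHyp_comp (P V : Set (ℝ × ℝ)) (A B : Matrix (Fin 3) (Fin 3) ℝ) (hB : B.det ≠ 0)
    (hV : V = pmap B '' {p ∈ P | 0 < aff B 2 p}) (M : ℕ) (h : WindowHyp V A M) :
    WindowHyp P (A * B) M := by
  obtain ⟨hA, hW, hin⟩ := h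
  refine ⟨by rw [Matrix.det_mul]; exact mul_ne_zero hA hB, ?_, ?_⟩
  · intro z hz
    obtain ⟨v, ⟨hv, hvZ⟩, rfl⟩ := hW hz
    rw [hV] at hv
    obtain ⟨p, ⟨hp, hpZ⟩, rfl⟩ := hv
    refine ⟨p, ⟨hp, ?_⟩, pmap_mul A B p hpZ.ne'⟩
    rw [aff_mul' A B 2 p hpZ.ne']
    positivity
  · intro p hp hpZ h1 h2 h3 h4
    obtain ⟨b₀, b₁, b₂, hb⟩ := exists_row hA
    have hM : (0 : ℤ) ≤ M := Int.natCast_nonneg M
    -- positivity at the corners
    have hcorner : ∀ z ∈ Box M, 0 < b₀ * z.1 + b₁ * z.2 + b₂ := by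
      intro z hz
      obtain ⟨v, ⟨hv, hvZ⟩, hvz⟩ := hW ⟨z, hz, rfl⟩
      have e := hb v.1 v.2 1
      have e' : b₀ * aff A 0 v + b₁ * aff A 1 v + b₂ * aff A 2 v = 1 := by
        simp only [aff]; linarith
      have z1 : (z.1 : ℝ) = aff A 0 v / aff A 2 v := (congrArg Prod.fst hvz).symm
      have z2 : (z.2 : ℝ) = aff A 1 v / aff A 2 v := (congrArg Prod.snd hvz).symm
      have : b₀ * z.1 + b₁ * z.2 + b₂ = 1 / aff A 2 v := by
        rw [z1, z2]
        field_simp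
        linarith
      rw [this]
      positivity
    have c00 := hcorner (0, 0) ⟨le_rfl, hM, le_rfl, hM⟩
    have c10 := hcorner ((M : ℤ), 0) ⟨hM, le_rfl, le_rfl, hM⟩
    have c01 := hcorner (0, (M : ℤ)) ⟨le_rfl, hM, hM, le_rfl⟩
    have c11 := hcorner ((M : ℤ), (M : ℤ)) ⟨hM, le_rfl, hM, le_rfl⟩
    simp only [Int.cast_zero, Int.cast_natCast, mul_zero, zero_add, add_zero] at c00 c10 c01 c11
    have hpos := affine_pos b₀ b₁ b₂ M (pmap (A * B) p).1 (pmap (A * B) p).2 h1 h2 h3 h4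
      c00 c10 c01 c11
    have e := hb (aff B 0 p) (aff B 1 p) (aff B 2 p)
    rw [← aff_mul, ← aff_mul, ← aff_mul] at e
    have hw : aff B 2 p = aff (A * B) 2 p *
        (b₀ * (pmap (A * B) p).1 + b₁ * (pmap (A * B) p).2 + b₂) := by
      have q1 : (pmap (A * B) p).1 = aff (A * B) 0 p / aff (A * B) 2 p := rfl
      have q2 : (pmap (A * B) p).2 = aff (A * B) 1 p / aff (A * B) 2 p := rfl
      rw [q1, q2]
      field_simp
      linarith
    have hw0 : 0 < aff B 2 p := by rw [hw]; exact mul_pos hpZ hpos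
    have hZ := aff_mul' A B 2 p hw0.ne'
    have hv : pmap B p ∈ V := by rw [hV]; exact ⟨p, ⟨hp, hw0⟩, rfl⟩
    have hvZ : 0 < aff A 2 (pmap B p) := by
      rw [hZ] at hpZ
      exact (mul_pos_iff_of_pos_left hw0).1 hpZ
    rw [pmap_mul A B p hw0.ne'] at h1 h2 h3 h4 ⊢
    exact hin _ hv hvZ h1 h2 h3 h4

end Pool.Agent.helper68.Vis
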