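import Mathlib

set_option autoImplicit false

/-!
# MP_6b3417_co, part II (parallel rows), module P1: abstract counting
-/

namespace Pool.Agent.helper68.Vis

lemma psi_mono (a b : ℕ) (F : ℕ → ℕ → ℤ)
    (hF1 : ∀ j k, j + 1 < a → k < b → F j k + 1 ≤ F (j + 1) k)
    (hF2 : ∀ j k, j < a → k + 1 < b → F j k + 1 ≤ F j (k + 1))
    (j k j' k' : ℕ) (hj : j ≤ j') (hk : k ≤ k') (hj' : j' < a) (hk' : k' < b) :
    F j k - j - k ≤ F j' k' - j' - k' := by
  have step1 : ∀ d : ℕ, ∀ j k : ℕ, j + d < a → k < b →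
      F j k - j - k ≤ F (j + d) k - ((j + d : ℕ) : ℤ) - k := by
    intro d
    induction d with
    | zero => intro j k _ _; simp
    | succ d ih =>
      intro j k h1 h2
      have e1 := ih j k (by omega) h2
      have e2 := hF1 (j + d) k (by omega) h2
      rw [show j + (d + 1) = j + d + 1 by omega]
      push_cast at e1 ⊢
      linarith
  have step2 : ∀ d : ℕ, ∀ j k : ℕ, j < a → k + d < b →
      F j k - j - k ≤ F j (k + d) - j - ((k + d : ℕ) : ℤ) := by
    intro d
    induction d with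
    | zero => intro j k _ _; simp
    | succ d ih =>
      intro j k h1 h2
      have e1 := ih j k h1 (by omega)
      have e2 := hF2 j (k + d) h1 (by omega)
      rw [show k + (d + 1) = k + d + 1 by omega]
      push_cast at e1 ⊢
      linarith
  have e1 := step1 (j' - j) j k (by omega) (by omega)
  have e2 := step2 (k' - k) j' k hj' (by omega)
  rw [show j + (j' - j) = j' by omega] at e1
  rw [show k + (k' - k) = k' by omega] at e2
  linarith

/-- Module P1 (abstract).  A function strictly increasing in both variables, with values between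
`0` and `2c`, is `j + k + const` on all but at most `2c + 2 - a - b` of any increasing family of
disjoint rectangles. -/
theorem psi_count (a b T : ℕ) (c : ℤ) (ha : 0 < a) (hb : 0 < b) (F : ℕ → ℕ → ℤ)
    (hF1 : ∀ j k, j + 1 < a → k < b → F j k + 1 ≤ F (j + 1) k)
    (hF2 : ∀ j k, j < a → k + 1 < b → F j k + 1 ≤ F j (k + 1))
    (h0 : 0 ≤ F 0 0) (h1 : F (a - 1) (b - 1) ≤ 2 * c)
    (l1 r1 l2 r2 : ℕ → ℕ)
    (hl1 : ∀ t < T, l1 t ≤ r1 t) (hr1 : ∀ t < T, r1 t < a) (hs1 : ∀ t, t + 1 < T → r1 t < l1 (t + 1))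
    (hl2 : ∀ t < T, l2 t ≤ r2 t) (hr2 : ∀ t < T, r2 t < b) (hs2 : ∀ t, t + 1 < T → r2 t < l2 (t + 1)) :
    (Set.ncard {t : ℕ | t < T ∧ ∃ j k, l1 t ≤ j ∧ j ≤ r1 t ∧ l2 t ≤ k ∧ k ≤ r2 t ∧
      F j k - j - k ≠ F (l1 t) (l2 t) - l1 t - l2 t} : ℤ) ≤ 2 * c + 2 - a - b := by
  classical
  set bad : ℕ → Prop := fun t => ∃ j k, l1 t ≤ j ∧ j ≤ r1 t ∧ l2 t ≤ k ∧ k ≤ r2 t ∧
      F j k - j - k ≠ F (l1 t) (l2 t) - l1 t - l2 t with hbad
  have hset : {t : ℕ | t < T ∧ ∃ j k, l1 t ≤ j ∧ j ≤ r1 t ∧ l2 t ≤ k ∧ k ≤ r2 t ∧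
      F j k - j - k ≠ F (l1 t) (l2 t) - l1 t - l2 t} =
      (((Finset.range T).filter bad : Finset ℕ) : Set ℕ) := by
    ext t
    simp [hbad]
  rw [hset, Set.ncard_coe_finset]
  have mono := psi_mono a b F hF1 hF2
  have key : ∀ S : ℕ, S ≤ T → ∃ e1 e2 : ℕ, e1 < a ∧ e2 < b ∧ (S < T → e1 ≤ l1 S ∧ e2 ≤ l2 S) ∧
      (((Finset.range S).filter bad).card : ℤ) + F 0 0 ≤ F e1 e2 - e1 - e2 := by
    intro S
    induction S with
    | zero => intro _; exact ⟨0, 0, ha, hb, fun _ => ⟨Nat.zero_le _, Nat.zero_le _⟩, by simp⟩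
    | succ S ih =>
      intro hS
      obtain ⟨e1, e2, he1, he2, hle, hc⟩ := ih (by omega)
      obtain ⟨g1, g2⟩ := hle (by omega)
      have hST : S < T := by omega
      refine ⟨r1 S, r2 S, hr1 S hST, hr2 S hST, fun h => ⟨(hs1 S h).le, (hs2 S h).le⟩, ?_⟩
      have m1 := mono e1 e2 (l1 S) (l2 S) g1 g2 (lt_of_le_of_lt (hl1 S hST) (hr1 S hST))
        (lt_of_le_of_lt (hl2 S hST) (hr2 S hST))
      by_cases hb' : bad S
      · obtain ⟨j, k, j1, j2, k1, k2, hne⟩ := hb'
        have m2 := mono (l1 S) (l2 S) j k j1 k1 (lt_of_le_of_lt j2 (hr1 S hST))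
          (lt_of_le_of_lt k2 (hr2 S hST))
        have m3 := mono j k (r1 S) (r2 S) j2 k2 (hr1 S hST) (hr2 S hST)
        have m4 := lt_of_le_of_ne m2 (Ne.symm hne)
        have hcard : ((Finset.range (S + 1)).filter bad).card ≤
            ((Finset.range S).filter bad).card + 1 := by
          rw [Finset.range_add_one, Finset.filter_insert]
          split_ifs
          · exact Finset.card_insert_le _ _
          · omega
        have hcard' : (((Finset.range (S + 1)).filter bad).card : ℤ) ≤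
            ((Finset.range S).filter bad).card + 1 := by exact_mod_cast hcard
        linarith
      · have m2 := mono (l1 S) (l2 S) (r1 S) (r2 S) (hl1 S hST) (hl2 S hST) (hr1 S hST)
          (hr2 S hST)
        have hcard : ((Finset.range (S + 1)).filter bad).card =
            ((Finset.range S).filter bad).card := by
          rw [Finset.range_add_one, Finset.filter_insert, if_neg hb']
        rw [hcard]
        linarith
  obtain ⟨e1, e2, he1, he2, -, hc⟩ := key T le_rfl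
  have m := mono e1 e2 (a - 1) (b - 1) (by omega) (by omega) (by omega) (by omega)
  have ca : ((a - 1 : ℕ) : ℤ) = a - 1 := by omega
  have cb : ((b - 1 : ℕ) : ℤ) = b - 1 := by omega
  rw [ca, cb] at m
  linarith

/-- In particular (`T = 0`). -/
theorem size_ineq (a b : ℕ) (c : ℤ) (ha : 0 < a) (hb : 0 < b) (F : ℕ → ℕ → ℤ)
    (hF1 : ∀ j k, j + 1 < a → k < b → F j k + 1 ≤ F (j + 1) k)
    (hF2 : ∀ j k, j < a → k + 1 < b → F j k + 1 ≤ F j (k + 1))
    (h0 : 0 ≤ F 0 0) (h1 : F (a - 1) (b - 1) ≤ 2 * c) : (a : ℤ) + b ≤ 2 * c + 2 := by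
  have m := psi_mono a b F hF1 hF2 0 0 (a - 1) (b - 1) (by omega) (by omega) (by omega) (by omega)
  have ca : ((a - 1 : ℕ) : ℤ) = a - 1 := by omega
  have cb : ((b - 1 : ℕ) : ℤ) = b - 1 := by omega
  rw [ca, cb] at m
  push_cast at m
  linarith

end Pool.Agent.helper68.Vis
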