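import Pool.Agent.helper47.Vis.Rows

set_option autoImplicit false

/-!
# MP_6b3417_co, part III: the projective map and its dictionary
-/

namespace Pool.Agent.helper68.Vis

open Pool.Agent.helper47.Vis

lemma aff_comb (A : Matrix (Fin 3) (Fin 3) ℝ) (i : Fin 3) (a b : ℝ × ℝ) {s t : ℝ}
    (h : s + t = 1) : aff A i (s • a + t • b) = s * aff A i a + t * aff A i b := by
  simp only [aff, Prod.fst_add, Prod.smul_fst, Prod.snd_add, Prod.smul_snd, smul_eq_mul]
  have : s = 1 - t := by linarith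
  subst this
  ring

lemma pmap_between {A : Matrix (Fin 3) (Fin 3) ℝ} {a b r : ℝ × ℝ} (ha : 0 < aff A 2 a)
    (hb : 0 < aff A 2 b) (hr : r ∈ openSegment ℝ a b) :
    0 < aff A 2 r ∧ pmap A r ∈ openSegment ℝ (pmap A a) (pmap A b) := by
  obtain ⟨s, t, hs, ht, hst, rfl⟩ := hr
  have hZ : 0 < s * aff A 2 a + t * aff A 2 b := by positivity
  refine ⟨by rw [aff_comb A 2 a b hst]; exact hZ, ?_⟩
  refine ⟨s * aff A 2 a / (s * aff A 2 a + t * aff A 2 b),
    t * aff A 2 b / (s * aff A 2 a + t * aff A 2 b), by positivity, by positivity, ?_, ?_⟩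
  · field_simp
  · simp only [pmap, aff_comb A _ a b hst, Prod.smul_mk, smul_eq_mul, Prod.mk_add_mk]
    ext
    · simp only
      field_simp
    · simp only
      field_simp

lemma pmap_between_inv {A : Matrix (Fin 3) (Fin 3) ℝ} {a b q : ℝ × ℝ} (ha : 0 < aff A 2 a)
    (hb : 0 < aff A 2 b) (hq : q ∈ openSegment ℝ (pmap A a) (pmap A b)) :
    ∃ r ∈ openSegment ℝ a b, 0 < aff A 2 r ∧ pmap A r = q := by
  obtain ⟨s, t, hs, ht, hst, rfl⟩ := hq
  have hZ : 0 < s * aff A 2 b + t * aff A 2 a := by positivity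
  have h1 : s * aff A 2 b / (s * aff A 2 b + t * aff A 2 a) +
      t * aff A 2 a / (s * aff A 2 b + t * aff A 2 a) = 1 := by field_simp
  have e2 : aff A 2 ((s * aff A 2 b / (s * aff A 2 b + t * aff A 2 a)) • a +
      (t * aff A 2 a / (s * aff A 2 b + t * aff A 2 a)) • b) =
      aff A 2 a * aff A 2 b / (s * aff A 2 b + t * aff A 2 a) := by
    rw [aff_comb A 2 a b h1]
    have : s = 1 - t := by linarith
    field_simp
    rw [this]; ring
  refine ⟨_, ⟨s * aff A 2 b / (s * aff A 2 b + t * aff A 2 a),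
    t * aff A 2 a / (s * aff A 2 b + t * aff A 2 a), by positivity, by positivity, h1, rfl⟩,
    ?_, ?_⟩
  · rw [e2]; positivity
  · simp only [pmap, e2]
    rw [aff_comb A 0 a b h1, aff_comb A 1 a b h1]
    simp only [Prod.smul_mk, smul_eq_mul, Prod.mk_add_mk]
    ext
    · simp only
      field_simp
    · simp only
      field_simp

lemma pmap_inj {A : Matrix (Fin 3) (Fin 3) ℝ} (hA : A.det ≠ 0) {a b : ℝ × ℝ}
    (ha : aff A 2 a ≠ 0) (hb : aff A 2 b ≠ 0) (h : pmap A a = pmap A b) : a = b := by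
  have h0 : aff A 0 a * aff A 2 b = aff A 0 b * aff A 2 a := by
    have := congrArg Prod.fst h
    simp only [pmap] at this
    field_simp at this
    linarith
  have h1 : aff A 1 a * aff A 2 b = aff A 1 b * aff A 2 a := by
    have := congrArg Prod.snd h
    simp only [pmap] at this
    field_simp at this
    linarith
  have hv : A.mulVec ![a.1 * aff A 2 b - b.1 * aff A 2 a, a.2 * aff A 2 b - b.2 * aff A 2 a,
      aff A 2 b - aff A 2 a] = 0 := by
    ext i
    fin_cases i
    · simp only [Matrix.mulVec, dotProduct, Fin.sum_univ_three]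
      simp [aff] at h0 ⊢
      linarith
    · simp only [Matrix.mulVec, dotProduct, Fin.sum_univ_three]
      simp [aff] at h1 ⊢
      linarith
    · simp only [Matrix.mulVec, dotProduct, Fin.sum_univ_three]
      simp [aff]
      ring
  have hz := Matrix.eq_zero_of_mulVec_eq_zero hA hv
  have z2 := congrFun hz 2
  have z1 := congrFun hz 1
  have z0 := congrFun hz 0
  simp at z0 z1 z2
  have e : aff A 2 b = aff A 2 a := by linarith
  rw [e] at z0 z1
  have y0 : (a.1 - b.1) * aff A 2 a = 0 := by linarith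
  have y1 : (a.2 - b.2) * aff A 2 a = 0 := by linarith
  rcases mul_eq_zero.1 y0 with y0 | y0
  · rcases mul_eq_zero.1 y1 with y1 | y1
    · exact Prod.ext (by linarith) (by linarith)
    · exact absurd y1 ha
  · exact absurd y0 ha

/-- The line at infinity of the inverse map. -/
lemma exists_phi {A : Matrix (Fin 3) (Fin 3) ℝ} (hA : A.det ≠ 0) :
    ∃ b₀ b₁ b₂ : ℝ, ∀ p : ℝ × ℝ, b₀ * aff A 0 p + b₁ * aff A 1 p + b₂ * aff A 2 p = 1 := by
  have hm : A⁻¹ * A = 1 := Matrix.nonsing_inv_mul A (isUnit_iff_ne_zero.2 hA)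
  have e0 := congrFun (congrFun hm 2) 0
  have e1 := congrFun (congrFun hm 2) 1
  have e2 := congrFun (congrFun hm 2) 2
  rw [Matrix.mul_apply, Fin.sum_univ_three] at e0 e1 e2
  rw [Matrix.one_apply_ne (by decide)] at e0
  rw [Matrix.one_apply_ne (by decide)] at e1
  rw [Matrix.one_apply_eq] at e2
  refine ⟨A⁻¹ 2 0, A⁻¹ 2 1, A⁻¹ 2 2, fun p => ?_⟩
  simp only [aff]
  linear_combination p.1 * e0 + p.2 * e1 + e2

/-- Case `Z_r > 0` on the segment from `p` (`Z_p > 0`) to `y` (`Z_y < 0`). -/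
lemma dict_pos {A : Matrix (Fin 3) (Fin 3) ℝ} {p y r : ℝ × ℝ} (hp : 0 < aff A 2 p)
    (hy : aff A 2 y < 0) (hr : r ∈ openSegment ℝ p y) (hZ : 0 < aff A 2 r) :
    ∃ lam : ℝ, 0 < lam ∧ pmap A r = pmap A p + lam • (pmap A p - pmap A y) := by
  obtain ⟨s, t, hs, ht, hst, rfl⟩ := hr
  rw [aff_comb A 2 p y hst] at hZ
  refine ⟨t * (- aff A 2 y) / (s * aff A 2 p + t * aff A 2 y), ?_, ?_⟩
  · have : 0 < - aff A 2 y := by linarith
    positivity
  · have hy' : aff A 2 y ≠ 0 := hy.ne
    have hZ' : s * aff A 2 p + t * aff A 2 y ≠ 0 := hZ.ne'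
    simp only [pmap, aff_comb A _ p y hst]
    ext
    · simp only [Prod.fst_add, Prod.smul_fst, Prod.fst_sub, smul_eq_mul]
      field_simp
      ring
    · simp only [Prod.snd_add, Prod.smul_snd, Prod.snd_sub, smul_eq_mul]
      field_simp
      ring

/-- Case `Z_r = 0` on the segment from `p` (`Z_p > 0`) to `y` (`Z_y < 0`). -/
lemma dict_zero {A : Matrix (Fin 3) (Fin 3) ℝ} {p y r : ℝ × ℝ} (hp : 0 < aff A 2 p)
    (hy : aff A 2 y < 0) (hr : r ∈ openSegment ℝ p y) (hZ : aff A 2 r = 0) :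
    ∃ mu : ℝ, 0 < mu ∧ (aff A 0 r, aff A 1 r) = mu • (pmap A p - pmap A y) := by
  obtain ⟨s, t, hs, ht, hst, rfl⟩ := hr
  rw [aff_comb A 2 p y hst] at hZ
  refine ⟨s * aff A 2 p, by positivity, ?_⟩
  have hy' : aff A 2 y ≠ 0 := hy.ne
  have e : t * aff A 2 y = - (s * aff A 2 p) := by linarith
  simp only [pmap, aff_comb A _ p y hst]
  ext
  · simp only [Prod.smul_fst, Prod.fst_sub, smul_eq_mul]
    field_simp
    linear_combination (aff A 0 y) * e
  · simp only [Prod.smul_snd, Prod.snd_sub, smul_eq_mul]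
    field_simp
    linear_combination (aff A 1 y) * e

/-- The segment from `p` (`Z_p > 0`) to `q` on the vanishing line. -/
lemma dict_van {A : Matrix (Fin 3) (Fin 3) ℝ} {p q r : ℝ × ℝ} (hp : 0 < aff A 2 p)
    (hq : aff A 2 q = 0) (hr : r ∈ openSegment ℝ p q) :
    0 < aff A 2 r ∧ ∃ lam : ℝ, 0 < lam ∧ pmap A r = pmap A p + lam • (aff A 0 q, aff A 1 q) := by
  obtain ⟨s, t, hs, ht, hst, rfl⟩ := hr
  have e2 : aff A 2 (s • p + t • q) = s * aff A 2 p := by
    rw [aff_comb A 2 p q hst, hq]; ring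
  refine ⟨by rw [e2]; positivity, t / (s * aff A 2 p), by positivity, ?_⟩
  simp only [pmap, e2]
  rw [aff_comb A 0 p q hst, aff_comb A 1 p q hst]
  ext
  · simp only [Prod.fst_add, Prod.smul_fst, smul_eq_mul]
    field_simp
  · simp only [Prod.snd_add, Prod.smul_snd, smul_eq_mul]
    field_simp

/-- Visibility transfers from the image back to `P`. -/
lemma sees_of_pmap {A : Matrix (Fin 3) (Fin 3) ℝ} {P : Set (ℝ × ℝ)} {a b : ℝ × ℝ}
    (ha : 0 < aff A 2 a) (hb : 0 < aff A 2 b)
    (h : Sees (pmap A '' {p ∈ P | 0 < aff A 2 p}) (pmap A a) (pmap A b)) : Sees P a b := by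
  refine ⟨fun e => h.1 (by rw [e]), fun r hr hrs => ?_⟩
  obtain ⟨h1, h2⟩ := pmap_between ha hb hrs
  exact h.2 _ ⟨r, ⟨hr, h1⟩, rfl⟩ h2

lemma K5free_pmap {A : Matrix (Fin 3) (Fin 3) ℝ} {P : Set (ℝ × ℝ)} (h : K5free P) :
    K5free (pmap A '' {p ∈ P | 0 < aff A 2 p}) := by
  rintro ⟨f, hf, hs⟩
  choose g hg hgf using hf
  refine h ⟨g, fun i => (hg i).1, fun i j hij => ?_⟩
  have := hs i j hij
  rw [← hgf i, ← hgf j] at this
  exact sees_of_pmap (hg i).2 (hg j).2 this

/-- Two colours on the vanishing line. -/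
lemma line_col (A : Matrix (Fin 3) (Fin 3) ℝ) (hA : A.det ≠ 0) (P : Set (ℝ × ℝ))
    (hf : P.Finite) : ∃ c : ℝ × ℝ → ℕ, ∀ p ∈ P, ∀ q ∈ P, aff A 2 p = 0 → aff A 2 q = 0 →
      Sees P p q → c p % 2 ≠ c q % 2 := by
  classical
  have key : ∀ p q : ℝ × ℝ, aff A 2 p = 0 → aff A 2 q = 0 →
      A 2 1 * p.1 - A 2 0 * p.2 = A 2 1 * q.1 - A 2 0 * q.2 → p = q := by
    intro p q hp hq hl
    have hne : A 2 0 ^ 2 + A 2 1 ^ 2 ≠ 0 := by
      intro h0
      have h20 : A 2 0 = 0 := by nlinarith [sq_nonneg (A 2 0), sq_nonneg (A 2 1)]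
      have h21 : A 2 1 = 0 := by nlinarith [sq_nonneg (A 2 0), sq_nonneg (A 2 1)]
      have h22 : A 2 2 = 0 := by
        simp only [aff, h20, h21] at hp; linarith
      apply hA
      apply Matrix.det_eq_zero_of_row_eq_zero 2
      intro j
      fin_cases j
      · exact h20
      · exact h21
      · exact h22
    simp only [aff] at hp hq
    have e1 : (A 2 0 ^ 2 + A 2 1 ^ 2) * (p.1 - q.1) = 0 := by
      linear_combination (A 2 0) * hp - (A 2 0) * hq + (A 2 1) * hl
    have e2 : (A 2 0 ^ 2 + A 2 1 ^ 2) * (p.2 - q.2) = 0 := by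
      linear_combination (A 2 1) * hp - (A 2 1) * hq - (A 2 0) * hl
    have f1 := (mul_eq_zero.1 e1).resolve_left hne
    have f2 := (mul_eq_zero.1 e2).resolve_left hne
    exact Prod.ext (by linarith) (by linarith)
  set S : Finset (ℝ × ℝ) := hf.toFinset.filter (fun p => aff A 2 p = 0) with hS
  set l : ℝ × ℝ → ℝ := fun p => A 2 1 * p.1 - A 2 0 * p.2 with hl
  have main : ∀ p ∈ P, ∀ q ∈ P, aff A 2 p = 0 → aff A 2 q = 0 → Sees P p q → l p < l q →
      (S.filter (fun r => l r < l q)).card = (S.filter (fun r => l r < l p)).card + 1 := by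
    intro p hp q hq hp0 hq0 hs hlt
    have : S.filter (fun r => l r < l q) = insert p (S.filter (fun r => l r < l p)) := by
      ext r
      simp only [Finset.mem_filter, Finset.mem_insert, hS, Set.Finite.mem_toFinset]
      constructor
      · rintro ⟨⟨hr, hr0⟩, hrl⟩
        rcases lt_trichotomy (l r) (l p) with h | h | h
        · exact Or.inr ⟨⟨hr, hr0⟩, h⟩
        · exact Or.inl (key r p hr0 hp0 h)
        · exfalso
          apply hs.2 r hr
          have hd : 0 < l q - l p := by linarith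
          have h1 : (l q - l r) / (l q - l p) + (l r - l p) / (l q - l p) = 1 := by
            field_simp; ring
          refine ⟨(l q - l r) / (l q - l p), (l r - l p) / (l q - l p),
            div_pos (by linarith) hd, div_pos (by linarith) hd, h1, ?_⟩
          apply key
          · rw [aff_comb A 2 p q h1, hp0, hq0]; ring
          · exact hr0
          · have hd' : l q - l p ≠ 0 := hd.ne'
            have e := h1
            have : l (((l q - l r) / (l q - l p)) • p + ((l r - l p) / (l q - l p)) • q) =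
                (l q - l r) / (l q - l p) * l p + (l r - l p) / (l q - l p) * l q := by
              simp only [hl, Prod.fst_add, Prod.smul_fst, Prod.snd_add, Prod.smul_snd,
                smul_eq_mul]
              ring
            have h2 : (l q - l r) / (l q - l p) * l p + (l r - l p) / (l q - l p) * l q = l r := by
              field_simp
              ring
            exact this.trans h2
      · rintro (rfl | ⟨⟨hr, hr0⟩, hrl⟩)
        · exact ⟨⟨hp, hp0⟩, hlt⟩
        · exact ⟨⟨hr, hr0⟩, hrl.trans hlt⟩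
    rw [this, Finset.card_insert_of_notMem]
    simp
  refine ⟨fun p => (S.filter (fun r => l r < l p)).card, fun p hp q hq hp0 hq0 hs => ?_⟩
  rcases lt_trichotomy (l p) (l q) with h | h | h
  · have := main p hp q hq hp0 hq0 hs h
    simp only [this]
    omega
  · exact absurd (key p q hp0 hq0 h) hs.1
  · have := main q hq p hp hq0 hp0 hs.symm h
    simp only [this]
    omega

end Pool.Agent.helper68.Vis
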