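import Pool.Agent.helper88.Vis.Defs
import Pool.Agent.helper68.Vis.Pmap

set_option autoImplicit false

/-!
# MP_6b3417_co, part II, module II-G: the chart sending line `0` to infinity
-/

namespace Pool.Agent.helper68.Vis.Chart

open Pool.Agent.helper47.Vis Pool.Agent.helper88.Vis

theorem K5free_pmap (A : Matrix (Fin 3) (Fin 3) ℝ) (_hA : A.det ≠ 0) (S : Set (ℝ × ℝ))
    (hS : ∀ p ∈ S, 0 < aff A 2 p) (hK : K5free S) : K5free (pmap A '' S) := by
  rintro ⟨f, hf, hs⟩
  choose g hg hgf using hf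
  refine hK ⟨g, hg, fun i j hij => ?_⟩
  have h := hs i j hij
  rw [← hgf i, ← hgf j] at h
  refine ⟨fun e => h.1 (by rw [e]), fun r hr hrs => ?_⟩
  obtain ⟨-, h2⟩ := Pool.Agent.helper68.Vis.pmap_between (hS _ (hg i)) (hS _ (hg j)) hrs
  exact h.2 _ ⟨r, hr, rfl⟩ h2

theorem pmap_injOn (A : Matrix (Fin 3) (Fin 3) ℝ) (hA : A.det ≠ 0) (S : Set (ℝ × ℝ))
    (hS : ∀ p ∈ S, 0 < aff A 2 p) : Set.InjOn (pmap A) S := by
  intro a ha b hb h
  exact Pool.Agent.helper68.Vis.pmap_inj hA (hS a ha).ne' (hS b hb).ne' h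

/-- Sorted enumeration of a finite set of reals. -/
lemma exists_sorted (T : Finset ℝ) : ∃ x : ℕ → ℝ, (∀ j k, j < k → k < T.card → x j < x k) ∧
    (∀ j < T.card, x j ∈ T) ∧ (∀ t ∈ T, ∃ j < T.card, x j = t) := by
  classical
  refine ⟨fun j => if h : j < T.card then T.orderEmbOfFin rfl ⟨j, h⟩ else 0, ?_, ?_, ?_⟩
  · intro j k hjk hk
    have hj : j < T.card := hjk.trans hk
    simp only [hj, hk, dif_pos]
    exact (T.orderEmbOfFin rfl).strictMono hjk
  · intro j hj
    simp only [hj, dif_pos]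
    exact Finset.orderEmbOfFin_mem T rfl _
  · intro t ht
    have : t ∈ Set.range (T.orderEmbOfFin rfl) := by
      rw [Finset.range_orderEmbOfFin]; exact ht
    obtain ⟨⟨j, hj⟩, hjt⟩ := this
    exact ⟨j, hj, by simp only [hj, dif_pos]; exact hjt⟩

/-- Cramer: a form in the kernel of `det3 u v` is a combination of `u` and `v`. -/
lemma span_of_det3 (u v w : Fin 3 → ℝ)
    (hne : ¬ (u 1 * v 2 - u 2 * v 1 = 0 ∧ u 2 * v 0 - u 0 * v 2 = 0 ∧ u 0 * v 1 - u 1 * v 0 = 0))
    (h : det3 u v w = 0) : ∃ α β : ℝ, ∀ k, w k = α * u k + β * v k := by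
  set n0 := u 1 * v 2 - u 2 * v 1 with hn0
  set n1 := u 2 * v 0 - u 0 * v 2 with hn1
  set n2 := u 0 * v 1 - u 1 * v 0 with hn2
  have hN : 0 < n0 ^ 2 + n1 ^ 2 + n2 ^ 2 := by
    by_contra hcon
    push Not at hcon
    apply hne
    refine ⟨?_, ?_, ?_⟩
    · nlinarith [sq_nonneg n0, sq_nonneg n1, sq_nonneg n2]
    · nlinarith [sq_nonneg n0, sq_nonneg n1, sq_nonneg n2]
    · nlinarith [sq_nonneg n0, sq_nonneg n1, sq_nonneg n2]
  set α := ((w 1 * v 2 - w 2 * v 1) * n0 + (w 2 * v 0 - w 0 * v 2) * n1 +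
    (w 0 * v 1 - w 1 * v 0) * n2) / (n0 ^ 2 + n1 ^ 2 + n2 ^ 2) with hα
  set β := ((u 1 * w 2 - u 2 * w 1) * n0 + (u 2 * w 0 - u 0 * w 2) * n1 +
    (u 0 * w 1 - u 1 * w 0) * n2) / (n0 ^ 2 + n1 ^ 2 + n2 ^ 2) with hβ
  have hd : n0 * w 0 + n1 * w 1 + n2 * w 2 = 0 := by
    have : det3 u v w = n0 * w 0 + n1 * w 1 + n2 * w 2 := by
      simp only [det3, hn0, hn1, hn2]; ring
    linarith
  have eα : α * (n0 ^ 2 + n1 ^ 2 + n2 ^ 2) = (w 1 * v 2 - w 2 * v 1) * n0 +
      (w 2 * v 0 - w 0 * v 2) * n1 + (w 0 * v 1 - w 1 * v 0) * n2 := by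
    rw [hα]; field_simp
  have eβ : β * (n0 ^ 2 + n1 ^ 2 + n2 ^ 2) = (u 1 * w 2 - u 2 * w 1) * n0 +
      (u 2 * w 0 - u 0 * w 2) * n1 + (u 0 * w 1 - u 1 * w 0) * n2 := by
    rw [hβ]; field_simp
  refine ⟨α, β, fun k => ?_⟩
  apply mul_left_cancel₀ hN.ne'
  have e1 : (n0 ^ 2 + n1 ^ 2 + n2 ^ 2) * (α * u k + β * v k) =
      ((w 1 * v 2 - w 2 * v 1) * n0 + (w 2 * v 0 - w 0 * v 2) * n1 +
        (w 0 * v 1 - w 1 * v 0) * n2) * u k +
      ((u 1 * w 2 - u 2 * w 1) * n0 + (u 2 * w 0 - u 0 * w 2) * n1 +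
        (u 0 * w 1 - u 1 * w 0) * n2) * v k := by
    rw [← eα, ← eβ]; ring
  rw [e1]
  fin_cases k
  · show (n0 ^ 2 + n1 ^ 2 + n2 ^ 2) * w 0 = _
    simp only [Fin.zero_eta]
    rw [hn0, hn1, hn2] at hd ⊢
    linear_combination (u 1 * v 2 - u 2 * v 1) * hd
  · show (n0 ^ 2 + n1 ^ 2 + n2 ^ 2) * w 1 = _
    simp only [Fin.mk_one]
    rw [hn0, hn1, hn2] at hd ⊢
    linear_combination (u 2 * v 0 - u 0 * v 2) * hd
  · show (n0 ^ 2 + n1 ^ 2 + n2 ^ 2) * w 2 = _
    simp only [Fin.reduceFinMk]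
    rw [hn0, hn1, hn2] at hd ⊢
    linear_combination (u 0 * v 1 - u 1 * v 0) * hd

/-- The points of `V j` are strictly on the far side of the earlier lines. -/
lemma chain_pos {H : ℕ} {V : ℕ → Finset (ℝ × ℝ)} {c d : ℕ → ℝ × ℝ} (hC : Chain H V c d)
    (i j : ℕ) (hij : i < j) (hj : j ≤ H) : ∀ p ∈ V j, p ∈ V i ∧ 0 < sd (c i) (d i) p := by
  induction j with
  | zero => omega
  | succ j ih =>
    intro p hp
    rw [hC.step j (by omega), mem_fil] at hp
    rcases Nat.lt_succ_iff_lt_or_eq.1 hij with h | h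
    · exact ih h (by omega) p hp.1
    · subst h
      exact hp

/-- The line number `i` as a form is not zero. -/
lemma lv_ne {c d : ℝ × ℝ} (hd : d ≠ 0) : ¬ (∀ k, lv c d k = 0) := by
  intro h
  have h0 := h 0
  have h1 := h 1
  simp only [lv, Matrix.cons_val_zero, Matrix.cons_val_one] at h0 h1
  exact hd (Prod.ext h1 (by simpa using h0))

/-- Two lines of the chain are different. -/
lemma chain_indep {H : ℕ} {V : ℕ → Finset (ℝ × ℝ)} {c d : ℕ → ℝ × ℝ} (hC : Chain H V c d)
    (i j : ℕ) (hij : i < j) (hj : j ≤ H) (u v : Fin 3 → ℝ) (hu : u = lv (c i) (d i))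
    (hv : v = lv (c j) (d j)) :
    ¬ (u 1 * v 2 - u 2 * v 1 = 0 ∧ u 2 * v 0 - u 0 * v 2 = 0 ∧ u 0 * v 1 - u 1 * v 0 = 0) := by
  rintro ⟨h0, h1, h2⟩
  have hcard := hC.two j hj
  obtain ⟨p, hp⟩ : (row V c d j).Nonempty := Finset.card_pos.1 (by omega)
  rw [row, mem_fil] at hp
  have hpos := (chain_pos hC i j hij hj p hp.1).2
  have hz := hp.2
  rw [sd_eq_lv, ← hu] at hpos
  rw [sd_eq_lv, ← hv] at hz
  apply lv_ne (c := c j) (hC.dne j hj)
  rw [← hv]
  intro k
  have hposne := hpos.ne'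
  fin_cases k
  · have : v 0 * (u 0 * p.1 + u 1 * p.2 + u 2) = 0 := by
      linear_combination u 0 * hz - p.2 * h2 + h1
    exact (mul_eq_zero.1 this).resolve_right hposne
  · have : v 1 * (u 0 * p.1 + u 1 * p.2 + u 2) = 0 := by
      linear_combination u 1 * hz + p.1 * h2 - h0
    exact (mul_eq_zero.1 this).resolve_right hposne
  · have : v 2 * (u 0 * p.1 + u 1 * p.2 + u 2) = 0 := by
      linear_combination u 2 * hz - p.1 * h1 + p.2 * h0
    exact (mul_eq_zero.1 this).resolve_right hposne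

/-- All lines pass through one projective point. -/
lemma all_conc {H J : ℕ} (hJ : 3 ≤ J) (hJH : J + 3 ≤ H) {V : ℕ → Finset (ℝ × ℝ)}
    {c d : ℕ → ℝ × ℝ} (hC : Chain H V c d)
    (hconc : ∀ i, i + 3 ≤ J + 1 →
      det3 (lv (c i) (d i)) (lv (c (i + 1)) (d (i + 1))) (lv (c (i + 3)) (d (i + 3))) = 0 ∧
      det3 (lv (c i) (d i)) (lv (c (i + 2)) (d (i + 2))) (lv (c (i + 3)) (d (i + 3))) = 0) :
    ∀ i ≤ J + 1, det3 (lv (c 0) (d 0)) (lv (c 1) (d 1)) (lv (c i) (d i)) = 0 := by
  have hlin : ∀ (u v w a b : Fin 3 → ℝ) (α β : ℝ), (∀ k, w k = α * a k + β * b k) →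
      det3 u v w = α * det3 u v a + β * det3 u v b := by
    intro u v w a b α β h
    simp only [det3]
    rw [h 0, h 1, h 2]
    ring
  intro i
  induction i using Nat.strong_induction_on with
  | _ i ih =>
    intro hi
    rcases Nat.lt_or_ge i 4 with h4 | h4
    · have h3' : det3 (lv (c 0) (d 0)) (lv (c 1) (d 1)) (lv (c 3) (d 3)) = 0 :=
        (hconc 0 (by omega)).1
      interval_cases i
      · simp only [det3]; ring
      · simp only [det3]; ring
      · have e := (hconc 0 (by omega)).2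
        simp only [zero_add] at e
        have e' : det3 (lv (c 0) (d 0)) (lv (c 3) (d 3)) (lv (c 2) (d 2)) = 0 := by
          simp only [det3] at e ⊢; linarith
        obtain ⟨α, β, h⟩ := span_of_det3 _ _ _
          (chain_indep hC 0 3 (by omega) (by omega) _ _ rfl rfl) e'
        rw [hlin _ _ _ _ _ α β h, h3']
        simp only [det3]; ring
      · exact h3'
    · obtain ⟨k, rfl⟩ : ∃ k, i = k + 3 := ⟨i - 3, by omega⟩
      have e := (hconc k (by omega)).1
      obtain ⟨α, β, h⟩ := span_of_det3 _ _ _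
        (chain_indep hC k (k + 1) (by omega) (by omega) _ _ rfl rfl) e
      rw [hlin _ _ _ _ _ α β h, ih k (by omega) (by omega), ih (k + 1) (by omega) (by omega)]
      ring

theorem chart (H J : ℕ) (hJ : 3 ≤ J) (hJH : J + 3 ≤ H) (V : ℕ → Finset (ℝ × ℝ)) (c d : ℕ → ℝ × ℝ)
    (hC : Chain H V c d) (h3 : ∀ i ≤ J + 1, 3 ≤ (row V c d i).card)
    (hconc : ∀ i, i + 3 ≤ J + 1 →
      det3 (lv (c i) (d i)) (lv (c (i + 1)) (d (i + 1))) (lv (c (i + 3)) (d (i + 3))) = 0 ∧
      det3 (lv (c i) (d i)) (lv (c (i + 2)) (d (i + 2))) (lv (c (i + 3)) (d (i + 3))) = 0) :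
    ∃ A : Matrix (Fin 3) (Fin 3) ℝ, A.det ≠ 0 ∧ (∀ p, aff A 2 p = sd (c 0) (d 0) p) ∧
      ∃ (η : ℕ → ℝ) (x : ℕ → ℕ → ℝ),
        Pool.Agent.helper47.Vis.Rows (pmap A '' (V 1 : Set (ℝ × ℝ))) J η
          (fun i => (row V c d (i + 1)).card) x := by
  classical
  set u := lv (c 1) (d 1) with hu
  set v := lv (c 0) (d 0) with hv
  have hne := chain_indep hC 0 1 (by omega) (by omega) v u hv hu
  set A : Matrix (Fin 3) (Fin 3) ℝ := Matrix.of ![
    ![u 1 * v 2 - u 2 * v 1, u 2 * v 0 - u 0 * v 2, u 0 * v 1 - u 1 * v 0], u, v] with hA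
  have a1 : ∀ k, A 1 k = u k := fun k => rfl
  have a2 : ∀ k, A 2 k = v k := fun k => rfl
  have hdet : A.det ≠ 0 := by
    have e : A.det = (u 1 * v 2 - u 2 * v 1) ^ 2 + (u 2 * v 0 - u 0 * v 2) ^ 2 +
        (u 0 * v 1 - u 1 * v 0) ^ 2 := by
      rw [Matrix.det_fin_three]
      have b0 : A 0 0 = u 1 * v 2 - u 2 * v 1 := rfl
      have b1 : A 0 1 = u 2 * v 0 - u 0 * v 2 := rfl
      have b2 : A 0 2 = u 0 * v 1 - u 1 * v 0 := rfl
      rw [b0, b1, b2]
      simp only [a1, a2]
      ring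
    rw [e]
    intro h0
    apply hne
    have s0 := sq_nonneg (u 1 * v 2 - u 2 * v 1)
    have s1 := sq_nonneg (u 2 * v 0 - u 0 * v 2)
    have s2 := sq_nonneg (u 0 * v 1 - u 1 * v 0)
    have z0 : u 1 * v 2 - u 2 * v 1 = 0 := pow_eq_zero_iff (n := 2) (by norm_num) |>.1 (by linarith)
    have z1 : u 2 * v 0 - u 0 * v 2 = 0 := pow_eq_zero_iff (n := 2) (by norm_num) |>.1 (by linarith)
    have z2 : u 0 * v 1 - u 1 * v 0 = 0 := pow_eq_zero_iff (n := 2) (by norm_num) |>.1 (by linarith)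
    exact ⟨by linarith, by linarith, by linarith⟩
  have f2 : ∀ p, aff A 2 p = sd (c 0) (d 0) p := by
    intro p
    rw [sd_eq_lv, ← hv]; rfl
  have f1 : ∀ p, aff A 1 p = sd (c 1) (d 1) p := by
    intro p
    rw [sd_eq_lv, ← hu]; rfl
  refine ⟨A, hdet, f2, ?_⟩
  -- the heights
  set y : ℝ × ℝ → ℝ := fun p => sd (c 1) (d 1) p / sd (c 0) (d 0) p with hy
  have hpm2 : ∀ p, (pmap A p).2 = y p := by
    intro p
    show aff A 1 p / aff A 2 p = _
    rw [f1, f2]
  have hpos0 : ∀ p ∈ V 1, 0 < sd (c 0) (d 0) p := fun p hp =>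
    (chain_pos hC 0 1 (by omega) (by omega) p hp).2
  have hsub1 : ∀ i, 1 ≤ i → i ≤ H → ∀ p ∈ V i, p ∈ V 1 := by
    intro i hi hiH p hp
    rcases hi.lt_or_eq with h | h
    · exact (chain_pos hC 1 i h hiH p hp).1
    · rw [h]; exact hp
  -- the lines in the pencil
  have hspan : ∀ i, 1 ≤ i → i ≤ J + 1 → ∃ α β : ℝ,
      ∀ p ∈ V 1, sd (c i) (d i) p = sd (c 0) (d 0) p * (α + β * y p) := by
    intro i hi hiJ
    have e := all_conc hJ hJH hC hconc i hiJ
    rw [← hv, ← hu] at e
    obtain ⟨α, β, h⟩ := span_of_det3 _ _ _ hne e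
    refine ⟨α, β, fun p hp => ?_⟩
    have h0 := hpos0 p hp
    have e1 : sd (c i) (d i) p = α * sd (c 0) (d 0) p + β * sd (c 1) (d 1) p := by
      rw [sd_eq_lv (c i), sd_eq_lv (c 0), sd_eq_lv (c 1), ← hu, ← hv, h 0, h 1, h 2]
      ring
    rw [e1]
    simp only [hy]
    field_simp
  choose! α β hαβ using hspan
  -- chosen points in the rows
  have hpt : ∀ i, ∃ p, i ≤ J → p ∈ row V c d (i + 1) := by
    intro i
    by_cases hi : i ≤ J
    · obtain ⟨p, hp⟩ : (row V c d (i + 1)).Nonempty :=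
        Finset.card_pos.1 (by have := h3 (i + 1) (by omega); omega)
      exact ⟨p, fun _ => hp⟩
    · exact ⟨0, fun h => absurd h hi⟩
  choose pt hpt using hpt
  set η : ℕ → ℝ := fun i => y (pt i) with hη
  have hptV : ∀ i ≤ J, pt i ∈ V (i + 1) ∧ sd (c (i + 1)) (d (i + 1)) (pt i) = 0 := by
    intro i hi
    have := hpt i hi
    rw [row, mem_fil] at this
    exact this
  have hzero : ∀ i ≤ J, α (i + 1) + β (i + 1) * η i = 0 := by
    intro i hi
    obtain ⟨h1, h2⟩ := hptV i hi
    have h1' := hsub1 (i + 1) (by omega) (by omega) _ h1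
    have e := hαβ (i + 1) (by omega) (by omega) _ h1'
    rw [h2] at e
    exact (mul_eq_zero.1 e.symm).resolve_left (hpos0 _ h1').ne'
  -- main induction
  have main : ∀ i ≤ J, (0 < β (i + 1)) ∧ (∀ p ∈ V (i + 1), η i ≤ y p) ∧
      (∀ j < i, η j < η (j + 1)) := by
    intro i
    induction i with
    | zero =>
      intro _
      have hη0 : η 0 = 0 := by
        simp only [hη, hy]
        rw [(hptV 0 (by omega)).2]
        simp
      have hnn : ∀ p ∈ V 1, 0 ≤ y p := by
        intro p hp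
        simp only [hy]
        exact div_nonneg (hC.nonneg 1 (by omega) p hp) (hpos0 p hp).le
      refine ⟨?_, fun p hp => ?_, fun j hj => absurd hj (by omega)⟩
      · -- use a point of `V 2`
        obtain ⟨p, hp⟩ : (row V c d 2).Nonempty :=
          Finset.card_pos.1 (by have := h3 2 (by omega); omega)
        rw [row, mem_fil] at hp
        have hp1 := chain_pos hC 1 2 (by omega) (by omega) p hp.1
        have e := hαβ 1 (by omega) (by omega) p hp1.1
        have hz := hzero 0 (by omega)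
        rw [hη0] at hz
        simp only [zero_add, mul_zero, add_zero] at hz
        rw [hz, zero_add] at e
        have h1 := hp1.2
        rw [e] at h1
        have h2 : 0 < β 1 * y p := (mul_pos_iff_of_pos_left (hpos0 p hp1.1)).1 h1
        have h3 := hnn p hp1.1
        by_contra hcon
        push Not at hcon
        have := mul_nonpos_of_nonpos_of_nonneg hcon h3
        linarith
      · rw [hη0]; exact hnn p hp
    | succ i ih =>
      intro hi
      obtain ⟨hβ, hge, hord⟩ := ih (by omega)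
      -- strictness
      have hgt : ∀ p ∈ V (i + 2), η i < y p := by
        intro p hp
        obtain ⟨h1, h2⟩ := chain_pos hC (i + 1) (i + 2) (by omega) (by omega) p hp
        have h1' := hsub1 (i + 1) (by omega) (by omega) _ h1
        have e := hαβ (i + 1) (by omega) (by omega) p h1'
        rw [e] at h2
        have h3 : 0 < α (i + 1) + β (i + 1) * y p :=
          (mul_pos_iff_of_pos_left (hpos0 p h1')).1 h2
        have hz := hzero i (by omega)
        have : 0 < β (i + 1) * (y p - η i) := by linarith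
        have := (mul_pos_iff_of_pos_left hβ).1 this
        linarith
      have hlt : η i < η (i + 1) := hgt _ (hptV (i + 1) hi).1
      -- a point of row `i + 1` strictly below line `i + 2`
      have hβ2 : 0 < β (i + 2) := by
        have hbad := hC.bad (i + 1) (by omega)
        have hcard := h3 (i + 1) (by omega)
        obtain ⟨s, hs, hs'⟩ : ∃ s ∈ row V c d (i + 1), sd (c (i + 2)) (d (i + 2)) s < 0 := by
          by_contra hcon
          push Not at hcon
          have hsub : row V c d (i + 1) ⊆ fil (V (i + 1)) (fun p => sd (c (i + 1)) (d (i + 1)) p = 0 ∧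
              0 ≤ sd (c (i + 1 + 1)) (d (i + 1 + 1)) p) := by
            intro s hs
            have hs2 := hcon s hs
            rw [row, mem_fil] at hs
            rw [mem_fil]
            exact ⟨hs.1, hs.2, hs2⟩
          have := Finset.card_le_card hsub
          omega
        rw [row, mem_fil] at hs
        have hs1 := hsub1 (i + 1) (by omega) (by omega) _ hs.1
        have e := hαβ (i + 2) (by omega) (by omega) s hs1
        have e0 := hαβ (i + 1) (by omega) (by omega) s hs1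
        rw [hs.2] at e0
        have e0' := (mul_eq_zero.1 e0.symm).resolve_left (hpos0 _ hs1).ne'
        have hz := hzero i (by omega)
        have hys : y s = η i := by
          have : β (i + 1) * (y s - η i) = 0 := by linarith
          have := (mul_eq_zero.1 this).resolve_left hβ.ne'
          linarith
        rw [e] at hs'
        have h4 : α (i + 2) + β (i + 2) * y s < 0 := by
          by_contra hcon
          push Not at hcon
          have := mul_nonneg (hpos0 _ hs1).le hcon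
          linarith
        have hz2 := hzero (i + 1) hi
        rw [hys] at h4
        have : 0 < β (i + 2) * (η (i + 1) - η i) := by
          have e1 : i + 1 + 1 = i + 2 := rfl
          rw [e1] at hz2
          linarith
        exact (mul_pos_iff_of_pos_right (by linarith)).1 this
      refine ⟨hβ2, fun p hp => ?_, fun j hj => ?_⟩
      · have hp1 := hsub1 (i + 2) (by omega) (by omega) _ hp
        have e := hαβ (i + 2) (by omega) (by omega) p hp1
        have hnn := hC.nonneg (i + 2) (by omega) p hp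
        rw [e] at hnn
        have h4 : 0 ≤ α (i + 2) + β (i + 2) * y p := nonneg_of_mul_nonneg_right hnn (hpos0 _ hp1)
        have hz2 := hzero (i + 1) hi
        have e1 : i + 1 + 1 = i + 2 := rfl
        rw [e1] at hz2
        have : 0 ≤ β (i + 2) * (y p - η (i + 1)) := by linarith
        have := nonneg_of_mul_nonneg_right this hβ2
        linarith
      · rcases Nat.lt_succ_iff_lt_or_eq.1 hj with h | h
        · exact hord j h
        · subst h; exact hlt
  -- membership in a row is the height condition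
  have hrow : ∀ i ≤ J, ∀ p ∈ V (i + 1), (sd (c (i + 1)) (d (i + 1)) p = 0 ↔ y p = η i) := by
    intro i hi p hp
    have hp1 := hsub1 (i + 1) (by omega) (by omega) _ hp
    have e := hαβ (i + 1) (by omega) (by omega) p hp1
    have hz := hzero i hi
    have hβ := (main i hi).1
    constructor
    · intro h
      rw [h] at e
      have e' := (mul_eq_zero.1 e.symm).resolve_left (hpos0 _ hp1).ne'
      have : β (i + 1) * (y p - η i) = 0 := by linarith
      have := (mul_eq_zero.1 this).resolve_left hβ.ne'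
      linarith
    · intro h
      rw [e, h, hz, mul_zero]
  have hmono : ∀ i j, i ≤ j → j ≤ J → η i ≤ η j := by
    intro i j hij hj
    induction j with
    | zero =>
      have : i = 0 := by omega
      rw [this]
    | succ j ih =>
      rcases Nat.lt_or_ge i (j + 1) with h | h
      · exact (ih (by omega) (by omega)).trans ((main (j + 1) hj).2.2 j (by omega)).le
      · have : i = j + 1 := by omega
        rw [this]
  -- enumeration of the rows
  set R : ℕ → Finset ℝ := fun i => (row V c d (i + 1)).image (fun p => (pmap A p).1) with hR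
  have hinj : ∀ i ≤ J, Set.InjOn (fun p => (pmap A p).1) (row V c d (i + 1) : Set (ℝ × ℝ)) := by
    intro i hi p hp q hq h
    rw [Finset.mem_coe, row, mem_fil] at hp hq
    have hp1 := hsub1 (i + 1) (by omega) (by omega) _ hp.1
    have hq1 := hsub1 (i + 1) (by omega) (by omega) _ hq.1
    apply Pool.Agent.helper68.Vis.pmap_inj hdet (by rw [f2]; exact (hpos0 _ hp1).ne')
      (by rw [f2]; exact (hpos0 _ hq1).ne')
    refine Prod.ext h ?_
    rw [hpm2, hpm2, (hrow i hi p hp.1).1 hp.2, (hrow i hi q hq.1).1 hq.2]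
  have hRcard : ∀ i ≤ J, (R i).card = (row V c d (i + 1)).card := fun i hi =>
    Finset.card_image_of_injOn (hinj i hi)
  have hex : ∀ i, ∃ x : ℕ → ℝ, (∀ j k, j < k → k < (R i).card → x j < x k) ∧
    (∀ j < (R i).card, x j ∈ R i) ∧ (∀ t ∈ R i, ∃ j < (R i).card, x j = t) :=
    fun i => exists_sorted (R i)
  choose x hx1 hx2 hx3 using hex
  refine ⟨η, x, ?_, ?_, ?_, ?_⟩
  · intro i hi
    exact (main J le_rfl).2.2 i hi
  · intro i hi j k hjk hk
    exact hx1 i j k hjk (by rw [hRcard i hi]; exact hk)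
  · intro i hi j hj
    have := hx2 i j (by rw [hRcard i hi]; exact hj)
    simp only [hR, Finset.mem_image] at this
    obtain ⟨p, hp, hpx⟩ := this
    rw [row, mem_fil] at hp
    refine ⟨p, Finset.mem_coe.2 (hsub1 (i + 1) (by omega) (by omega) _ hp.1), ?_⟩
    refine Prod.ext hpx ?_
    rw [hpm2, (hrow i hi p hp.1).1 hp.2]
  · rintro q ⟨p, hp, rfl⟩ - hle
    rw [Finset.mem_coe] at hp
    rw [hpm2] at hle
    -- the row containing `p`
    have hfind : ∀ k ≤ J, (∃ i ≤ k, p ∈ V (i + 1) ∧ sd (c (i + 1)) (d (i + 1)) p = 0) ∨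
        (p ∈ V (k + 1) ∧ sd (c (k + 1)) (d (k + 1)) p ≠ 0) := by
      intro k
      induction k with
      | zero =>
        intro _
        by_cases h0 : sd (c 1) (d 1) p = 0
        · exact Or.inl ⟨0, le_rfl, hp, h0⟩
        · exact Or.inr ⟨hp, h0⟩
      | succ k ih =>
        intro hk
        rcases ih (by omega) with ⟨i, hi, h1, h2⟩ | ⟨h1, h2⟩
        · exact Or.inl ⟨i, by omega, h1, h2⟩
        · have hV : p ∈ V (k + 1 + 1) := by
            rw [hC.step (k + 1) (by omega), mem_fil]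
            exact ⟨h1, lt_of_le_of_ne (hC.nonneg (k + 1) (by omega) p h1) (Ne.symm h2)⟩
          by_cases h0 : sd (c (k + 1 + 1)) (d (k + 1 + 1)) p = 0
          · exact Or.inl ⟨k + 1, le_rfl, hV, h0⟩
          · exact Or.inr ⟨hV, h0⟩
    have hfin : ∃ i ≤ J, p ∈ V (i + 1) ∧ sd (c (i + 1)) (d (i + 1)) p = 0 := by
      rcases hfind J le_rfl with h | ⟨h1, h2⟩
      · exact h
      · exfalso
        apply h2
        rw [hrow J le_rfl p h1]
        exact le_antisymm hle ((main J le_rfl).2.1 p h1)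
    obtain ⟨i, hi, h1, h2⟩ := hfin
    have hmem : (pmap A p).1 ∈ R i := by
      simp only [hR, Finset.mem_image]
      exact ⟨p, by rw [row, mem_fil]; exact ⟨h1, h2⟩, rfl⟩
    obtain ⟨j, hj, hje⟩ := hx3 i _ hmem
    refine ⟨i, hi, j, by rw [← hRcard i hi]; exact hj, ?_⟩
    refine Prod.ext hje.symm ?_
    rw [hpm2, (hrow i hi p h1).1 h2]

end Pool.Agent.helper68.Vis.Chart
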